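import Pool.Agent.H32.Dense.Cfg
import Pool.Agent.H32.Dense.Conf
import Pool.Agent.H24.KTH.Top

/-!
# Kakeya sets in dimension `n ≥ 8`: definitions

Families of lines with random times (`IsFam` of `H32/Dense`), of resolution `M = 2 ^ J`, and
configurations of three lines: the lines 0, 1 cross at the time `t`, the lines 0, 2 cross at the
time `s`; `t₁` is a further time of the line 0, `r` of the line 1, and `tr`, `ta` of the line 2.
-/

set_option autoImplicit false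

namespace Pool.KTH

open Finset Real
open Pool.Agent.H49.Ent Pool.Agent.H32.Dense
open Pool.Agent.H24.KTH (dsv lvv lev cap Yf kp LevOne LevPlus LevZero)

/-- `log M` for `M = 2 ^ J` -/
noncomputable def lm (J : ℕ) : ℝ := J * Real.log 2

/-- The error term for the deficit `e` of the times. -/
noncomputable def er (J : ℕ) (e : ℝ) : ℝ := e + 1 + Real.log (J + 2)

/-- Closeness of two times, always nonnegative. -/
noncomputable def gp (J : ℕ) (x y : ℤ) : ℝ := Real.log (1 + 2 ^ J / max 1 |(x : ℝ) - y|)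

/-- The point (time and rounded position) of a line at the time `t`. -/
noncomputable def pp {Ω : Type} {d : ℕ} (J : ℕ) (u : Ω → Fin d → ℝ) (v : Ω → Fin d → ℤ)
    (t : Ω → ℤ) (w : Ω) : ℤ × (Fin d → ℤ) := (t w, rd (pos (2 ^ J) (u w) (v w) (t w)))

/-! ### Families -/

/-- A family of lines with a random time. -/
structure Fm (d J : ℕ) : Type 1 where
  /-- the sample space -/
  Ω : Type
  /-- the values of the side information -/
  ζ : Type
  /-- the sample space is finite -/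
  fin : Fintype Ω
  /-- the law -/
  p : Ω → ℝ
  /-- the side information -/
  Z : Ω → ζ
  /-- the direction -/
  v : Ω → Fin d → ℤ
  /-- the position at time zero -/
  u : Ω → Fin d → ℝ
  /-- the time -/
  τ : Ω → ℤ
  isFam : IsFam (2 ^ J) p Z v u τ

attribute [instance] Fm.fin

variable {d J : ℕ}

/-- Entropy of the lines. -/
noncomputable def Fm.L (G : Fm d J) : ℝ := CH G.p G.v G.Z

/-- Entropy of the slices. -/
noncomputable def Fm.S (G : Fm d J) : ℝ := Sf (2 ^ J) G.p G.Z G.v G.u G.τ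

/-- Entropy of the points (with their times). -/
noncomputable def Fm.sb (G : Fm d J) : ℝ := CH G.p (pp J G.u G.v G.τ) G.Z

/-- The times are uniform up to the deficit `e`. -/
def Fm.Tm (G : Fm d J) (e : ℝ) : Prop := lm J - e ≤ CH G.p G.τ (fun ω => (G.v ω, G.Z ω))

/-- Mean closeness of two lines through a common point. -/
noncomputable def Fm.Y (G : Fm d J) : ℝ := Yf (2 ^ J) G.p G.Z G.v G.u G.τ

/-! ### Configurations -/

/-- A configuration of three lines. -/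
structure Cf (d J : ℕ) : Type 1 where
  /-- the sample space -/
  Ω : Type
  /-- the values of the side information -/
  ζ : Type
  /-- the sample space is finite -/
  fin : Fintype Ω
  /-- the law -/
  q : Ω → ℝ
  /-- the side information -/
  Z : Ω → ζ
  /-- direction of the line 0 -/
  v₀ : Ω → Fin d → ℤ
  /-- direction of the line 1 -/
  v₁ : Ω → Fin d → ℤ
  /-- direction of the line 2 -/
  v₂ : Ω → Fin d → ℤ
  /-- position of the line 0 -/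
  u₀ : Ω → Fin d → ℝ
  /-- position of the line 1 -/
  u₁ : Ω → Fin d → ℝ
  /-- position of the line 2 -/
  u₂ : Ω → Fin d → ℝ
  /-- crossing time of the lines 0, 1 -/
  t : Ω → ℤ
  /-- crossing time of the lines 0, 2 -/
  s : Ω → ℤ
  /-- a time of the line 0 -/
  t₁ : Ω → ℤ
  /-- a time of the line 1 -/
  r : Ω → ℤ
  /-- a time of the line 2 -/
  tr : Ω → ℤ
  /-- a time of the line 2 -/
  ta : Ω → ℤ
  hq : ∀ w, 0 ≤ q w
  h1 : ∑ w, q w = 1
  hv₀ : ∀ w, 0 < q w → ∀ k, |v₀ w k| ≤ ((2 ^ J : ℕ) : ℤ)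
  hv₁ : ∀ w, 0 < q w → ∀ k, |v₁ w k| ≤ ((2 ^ J : ℕ) : ℤ)
  hv₂ : ∀ w, 0 < q w → ∀ k, |v₂ w k| ≤ ((2 ^ J : ℕ) : ℤ)
  hu₀ : Det q (fun w => (v₀ w, Z w)) u₀
  hu₁ : Det q (fun w => (v₁ w, Z w)) u₁
  hu₂ : Det q (fun w => (v₂ w, Z w)) u₂
  ht : ∀ w, 0 < q w → 0 ≤ t w ∧ t w < ((2 ^ J : ℕ) : ℤ)
  hs : ∀ w, 0 < q w → 0 ≤ s w ∧ s w < ((2 ^ J : ℕ) : ℤ)
  ht₁ : ∀ w, 0 < q w → 0 ≤ t₁ w ∧ t₁ w < ((2 ^ J : ℕ) : ℤ)
  hr : ∀ w, 0 < q w → 0 ≤ r w ∧ r w < ((2 ^ J : ℕ) : ℤ)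
  htr : ∀ w, 0 < q w → 0 ≤ tr w ∧ tr w < ((2 ^ J : ℕ) : ℤ)
  hta : ∀ w, 0 < q w → 0 ≤ ta w ∧ ta w < ((2 ^ J : ℕ) : ℤ)
  cross01 : ∀ w, 0 < q w →
    rd (pos (2 ^ J) (u₀ w) (v₀ w) (t w)) = rd (pos (2 ^ J) (u₁ w) (v₁ w) (t w))
  cross02 : ∀ w, 0 < q w →
    rd (pos (2 ^ J) (u₀ w) (v₀ w) (s w)) = rd (pos (2 ^ J) (u₂ w) (v₂ w) (s w))

attribute [instance] Cf.fin

namespace Cf

variable (F : Cf d J)

/-- crossing point of the lines 0, 1 -/
noncomputable def P : F.Ω → ℤ × (Fin d → ℤ) := pp J F.u₀ F.v₀ F.t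
/-- crossing point of the lines 0, 2 -/
noncomputable def C : F.Ω → ℤ × (Fin d → ℤ) := pp J F.u₀ F.v₀ F.s
/-- a point of the line 0 -/
noncomputable def A : F.Ω → ℤ × (Fin d → ℤ) := pp J F.u₀ F.v₀ F.t₁
/-- a point of the line 1 -/
noncomputable def B : F.Ω → ℤ × (Fin d → ℤ) := pp J F.u₁ F.v₁ F.r
/-- a point of the line 2 -/
noncomputable def C₂ : F.Ω → ℤ × (Fin d → ℤ) := pp J F.u₂ F.v₂ F.tr
/-- a point of the line 2 -/
noncomputable def A₂ : F.Ω → ℤ × (Fin d → ℤ) := pp J F.u₂ F.v₂ F.ta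

/-- the first ratio -/
noncomputable def k₁ (w : F.Ω) : ℝ := kap (F.t w) (F.s w) (F.t₁ w)
/-- the second ratio -/
noncomputable def k₂ (w : F.Ω) : ℝ := kap (F.s w) (F.tr w) (F.ta w)
/-- the first coefficient -/
noncomputable def c : F.Ω → ℤ := cP F.t F.s F.t₁ F.r
/-- the second coefficient -/
noncomputable def c₂ : F.Ω → ℤ := cC F.s F.tr F.ta F.c

/-- the point `O` on the chord `AB`, such that `O - C` is parallel to the line 1 -/
noncomputable def O (w : F.Ω) : ℤ × (Fin d → ℤ) :=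
  (F.s w + F.c w, xf (2 ^ J) (F.u₀ w) (F.v₀ w) (F.s w) (F.c w) (F.v₁ w))
/-- the point `Y` on the chord `A₂ O`, such that `Y - C₂` is parallel to the line 1 -/
noncomputable def Y (w : F.Ω) : ℤ × (Fin d → ℤ) :=
  (F.tr w + F.c₂ w, xf (2 ^ J) (F.u₂ w) (F.v₂ w) (F.tr w) (F.c₂ w) (F.v₁ w))

/-- mean closeness of the lines 0, 1 -/
noncomputable def y01 : ℝ := Ex F.q (fun w => lvv (2 ^ J) (F.v₀ w) (F.v₁ w))
/-- mean closeness of the lines 1, 2 -/
noncomputable def y12 : ℝ := Ex F.q (fun w => lvv (2 ^ J) (F.v₁ w) (F.v₂ w))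
/-- `H(O)` -/
noncomputable def xh : ℝ := CH F.q F.O F.Z
/-- `H(Y)` -/
noncomputable def yh : ℝ := CH F.q F.Y F.Z
/-- `H(A, B)` -/
noncomputable def mh : ℝ := CH F.q (fun w => (F.A w, F.B w)) F.Z
/-- `H(v₀ | v₁, O)` -/
noncomputable def et₁ : ℝ := CH F.q F.v₀ (fun w => (F.v₁ w, F.O w, F.Z w))
/-- `H(v₁ | v₂, Y)` -/
noncomputable def et : ℝ := CH F.q F.v₁ (fun w => (F.v₂ w, F.Y w, F.Z w))
/-- `H(s | v₁, v₂)` -/
noncomputable def qs : ℝ := CH F.q F.s (fun w => (F.v₁ w, F.v₂ w, F.Z w))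
/-- `H(t | v₁, C₂)` -/
noncomputable def rh : ℝ := CH F.q F.t (fun w => (F.v₁ w, F.C₂ w, F.Z w))
/-- `H(O | A₂, Y)` -/
noncomputable def xi : ℝ := CH F.q F.O (fun w => (F.A₂ w, F.Y w, F.Z w))
/-- `I(C; O)` -/
noncomputable def ic : ℝ := CH F.q F.C F.Z + F.xh - CH F.q (fun w => (F.C w, F.O w)) F.Z
/-- `I(v₂; Y)` -/
noncomputable def iy : ℝ := CH F.q F.v₂ F.Z + F.yh - CH F.q (fun w => (F.v₂ w, F.Y w)) F.Z

/-- The entropies of the configuration. -/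
structure Ok (L sb e : ℝ) : Prop where
  e0 : 0 ≤ e
  /-- the lines 0, 1 and their crossing time -/
  cp : 2 * L + 2 * lm J - sb - e ≤ CH F.q (fun w => ((F.v₀ w, F.v₁ w), F.t w)) F.Z
  /-- the three lines and their crossing times -/
  cl : 3 * L + 4 * lm J - 2 * sb - e ≤
    CH F.q (fun w => ((F.v₀ w, F.v₁ w, F.v₂ w), F.t w, F.s w)) F.Z
  /-- the line 1 given the crossing point and a point of the line 2 -/
  cv : L + lm J - sb - e ≤ CH F.q F.v₁ (fun w => ((F.P w, F.C₂ w), F.Z w))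
  /-- the time `s` is uniform given the lines 0, 1 and the time `t` -/
  cs : lm J - e ≤ CH F.q F.s (fun w => ((F.v₀ w, F.v₁ w), F.t w, F.Z w))
  /-- the other times are uniform and independent given the three lines and the times `t`, `s` -/
  ct : 4 * lm J - e ≤ CH F.q (fun w => ((F.t₁ w, F.r w), F.tr w, F.ta w))
    (fun w => ((F.v₀ w, F.v₁ w, F.v₂ w), (F.t w, F.s w), F.Z w))
  l0 : CH F.q F.v₀ F.Z = L
  l1 : CH F.q F.v₁ F.Z = L
  l2 : CH F.q F.v₂ F.Z = L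
  sC : CH F.q F.C F.Z ≤ sb
  sA : CH F.q F.A F.Z ≤ sb
  sB : CH F.q F.B F.Z ≤ sb
  sC₂ : CH F.q F.C₂ F.Z ≤ sb
  sA₂ : CH F.q F.A₂ F.Z ≤ sb
  /-- symmetry of the times of the line 0 -/
  sym : CH F.q (fun w => (F.P w, F.C₂ w)) F.Z = F.mh

/-- The family of the lines 1 given `O`. -/
noncomputable def FL : Fm d J where
  Ω := F.Ω
  ζ := (ℤ × (Fin d → ℤ)) × F.ζ
  fin := F.fin
  p := F.q
  Z := fun w => (F.O w, F.Z w)
  v := F.v₁
  u := F.u₁
  τ := F.r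
  isFam := ⟨by positivity, F.hq, F.h1, F.hv₁, fun w w' a b h =>
    F.hu₁ w w' a b (Prod.ext (Prod.ext_iff.mp h).1 (Prod.ext_iff.mp (Prod.ext_iff.mp h).2).2),
    F.hr⟩

/-- The family of the lines 2 given `Y`. -/
noncomputable def FI : Fm d J where
  Ω := F.Ω
  ζ := (ℤ × (Fin d → ℤ)) × F.ζ
  fin := F.fin
  p := F.q
  Z := fun w => (F.Y w, F.Z w)
  v := F.v₂
  u := F.u₂
  τ := F.ta
  isFam := ⟨by positivity, F.hq, F.h1, F.hv₂, fun w w' a b h =>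
    F.hu₂ w w' a b (Prod.ext (Prod.ext_iff.mp h).1 (Prod.ext_iff.mp (Prod.ext_iff.mp h).2).2),
    F.hta⟩

end Cf

/-! ### The constants -/

/-- the exponent -/
noncomputable def aa : ℝ := 1.6752
/-- `a ^ 2 + 3 a - 2` -/
noncomputable def DD (a : ℝ) : ℝ := a ^ 2 + 3 * a - 2
/-- `3 a ^ 2 + 2 a - 2` -/
noncomputable def PP (a : ℝ) : ℝ := 3 * a ^ 2 + 2 * a - 2
/-- `3 a - a ^ 2 - 1` -/
noncomputable def kh (a : ℝ) : ℝ := 3 * a - a ^ 2 - 1

/-- SPREAD: at every random level `w ≤ N` (on any extension of the sample space) the caps of the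
directions have entropy at least `μ E (w / N) log M - τ`. -/
def Fm.Spr (G : Fm d J) (N : ℕ) (μ τ : ℝ) : Prop :=
  ∀ (Ω' : Type) [Fintype Ω'] (q : Ω' → ℝ) (pr : Ω' → G.Ω) (w : Ω' → ℕ), (∀ ω, 0 ≤ q ω) →
    Marg q G.p pr → (∀ ω, w ω ≤ N) → μ * (Ex q (fun ω => (w ω : ℝ)) / N * lm J) - τ ≤
      CH q (fun ω => cap J (lev J N (w ω)) (G.v (pr ω))) (fun ω => (w ω, G.Z (pr ω)))

/-- The same for the lines 0 and 2 of a configuration. -/
def Cf.Spr (F : Cf d J) (N : ℕ) (μ τ : ℝ) : Prop :=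
  ∀ (Ω' : Type) [Fintype Ω'] (q : Ω' → ℝ) (pr : Ω' → F.Ω) (w : Ω' → ℕ), (∀ ω, 0 ≤ q ω) →
    Marg q F.q pr → (∀ ω, w ω ≤ N) →
    μ * (Ex q (fun ω => (w ω : ℝ)) / N * lm J) - τ ≤
      CH q (fun ω => cap J (lev J N (w ω)) (F.v₀ (pr ω))) (fun ω => (w ω, F.Z (pr ω))) ∧
    μ * (Ex q (fun ω => (w ω : ℝ)) / N * lm J) - τ ≤
      CH q (fun ω => cap J (lev J N (w ω)) (F.v₂ (pr ω))) (fun ω => (w ω, F.Z (pr ω)))

end Pool.KTH
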