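import Pool.Agent.H12.KTH.Stmts
import Pool.Agent.H32.Dense.Fam

/-!
# Algebra of the error terms
-/

set_option autoImplicit false

namespace Pool.KTH

open Finset Real
open Pool.Agent.H49.Ent Pool.Agent.H32.Dense

lemma lm_nonneg (J : ℕ) : 0 ≤ lm J := by
  unfold lm
  have := Real.log_nonneg (show (1 : ℝ) ≤ 2 by norm_num)
  positivity

lemma lm_eq (J : ℕ) : lm J = Real.log (2 ^ J) := by
  unfold lm
  rw [Real.log_pow]

lemma lm_eq' (J : ℕ) : lm J = Real.log ((2 ^ J : ℕ) : ℝ) := by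
  rw [lm_eq]
  push_cast
  rfl

lemma half_lt_log2 : (1 / 2 : ℝ) < Real.log 2 := by
  have := Real.log_two_gt_d9
  linarith

lemma log2_lt_one : Real.log 2 < 1 := by
  have := Real.log_two_lt_d9
  linarith

lemma lm_pos {J : ℕ} (hJ : 1 ≤ J) : 0 < lm J := by
  unfold lm
  have h1 : (1 : ℝ) ≤ J := by exact_mod_cast hJ
  have h2 := half_lt_log2
  positivity

lemma er_ge_one {J : ℕ} {e : ℝ} (he : 0 ≤ e) : 1 ≤ er J e := by
  unfold er
  have : 0 ≤ Real.log ((J : ℝ) + 2) := Real.log_nonneg (by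
    have : (0 : ℝ) ≤ J := Nat.cast_nonneg J
    linarith)
  linarith

lemma le_er {J : ℕ} {e : ℝ} : e ≤ er J e := by
  unfold er
  have : 0 ≤ Real.log ((J : ℝ) + 2) := Real.log_nonneg (by
    have : (0 : ℝ) ≤ J := Nat.cast_nonneg J
    linarith)
  linarith

lemma er_nonneg {J : ℕ} {e : ℝ} (he : 0 ≤ e) : 0 ≤ er J e := zero_le_one.trans (er_ge_one he)

lemma log_le_er {J : ℕ} {e : ℝ} (he : 0 ≤ e) : Real.log (J + 2) ≤ er J e := by
  unfold er
  linarith

lemma er_mono {J : ℕ} {e e' : ℝ} (h : e ≤ e') : er J e ≤ er J e' := by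
  unfold er
  linarith

lemma er_mul_le {J : ℕ} {e k : ℝ} (he : 0 ≤ e) (hk : 1 ≤ k) : er J (k * e) ≤ k * er J e := by
  have h1 := log_le_er (J := J) he
  have h2 : 0 ≤ Real.log ((J : ℝ) + 2) := Real.log_nonneg (by
    have : (0 : ℝ) ≤ J := Nat.cast_nonneg J
    linarith)
  unfold er
  nlinarith

/-- The errors are small compared to `lm J`. -/
lemma er_small {ε : ℝ} (hε : 0 < ε) : ∃ J₀ : ℕ, 1 ≤ J₀ ∧ ∀ J : ℕ, J₀ ≤ J → ∀ e : ℝ,
    er J e ≤ e + ε * lm J := by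
  -- `log (J + 2) ≤ (J + 2) ^ (1/2)`-type bound: `log x ≤ 2 sqrt x`
  obtain ⟨n, hn⟩ := exists_nat_gt (256 / ε ^ 2 + 8 / ε + 2)
  refine ⟨n + 1, by omega, fun J hJ e => ?_⟩
  have hJr : (n : ℝ) + 1 ≤ J := by exact_mod_cast hJ
  have hJ0 : (0 : ℝ) < J := by
    have : (0 : ℝ) ≤ n := Nat.cast_nonneg n
    linarith
  have h2 : (0 : ℝ) < J + 2 := by linarith
  have hs : Real.log ((J : ℝ) + 2) ≤ 2 * Real.sqrt (J + 2) := by
    have h3 := Real.log_le_sub_one_of_pos (Real.sqrt_pos.mpr h2)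
    have h4 : Real.log (Real.sqrt ((J : ℝ) + 2)) = Real.log (J + 2) / 2 := Real.log_sqrt h2.le
    rw [h4] at h3
    linarith
  have h5 : Real.sqrt ((J : ℝ) + 2) ≤ ε / 16 * (J + 2) := by
    rw [Real.sqrt_le_left (by positivity)]
    have e1 : (ε / 16 * ((J : ℝ) + 2)) ^ 2 = (ε ^ 2 / 256 * (J + 2)) * (J + 2) := by ring
    rw [e1]
    have e2 : 1 ≤ ε ^ 2 / 256 * ((J : ℝ) + 2) := by
      have e3 : 256 / ε ^ 2 ≤ J + 2 := by
        have : 0 < 8 / ε := by positivity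
        linarith
      rw [div_le_iff₀ (by positivity)] at e3
      linarith
    nlinarith
  have h6 : 8 / ε ≤ J := by
    have : 0 < 256 / ε ^ 2 := by positivity
    linarith
  rw [div_le_iff₀ hε] at h6
  have h7 := half_lt_log2
  have h8 : ε * (J * (1 / 2)) ≤ ε * (J * Real.log 2) := by gcongr
  have h9 : (2 : ℝ) ≤ J := by
    have : 0 < 256 / ε ^ 2 := by positivity
    have : 0 < 8 / ε := by positivity
    linarith
  unfold er lm
  nlinarith

section Ok

variable {d J : ℕ} {F : Cf d J} {L sb e e' : ℝ}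

lemma Cf.Ok.mono (h : F.Ok L sb e) (he : e ≤ e') : F.Ok L sb e' :=
  ⟨h.e0.trans he, by linarith [h.cp], by linarith [h.cl], by linarith [h.cv], by linarith [h.cs],
    by linarith [h.ct], h.l0, h.l1, h.l2, h.sC, h.sA, h.sB, h.sC₂, h.sA₂, h.sym⟩

end Ok

variable {d : ℕ} {f g : ∀ J : ℕ, Cf d J → ℝ → ℝ → ℝ}

lemma Ev.mono (h : Ev d g) (hfg : ∀ J F L sb, f J F L sb ≤ g J F L sb) : Ev d f := by
  obtain ⟨C, hC, h⟩ := h
  exact ⟨C, hC, fun J F L sb e he => (hfg J F L sb).trans (h J F L sb e he)⟩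

/-- The comparison may use `Ok`. -/
lemma Ev.mono' (h : Ev d g) (hfg : ∀ J F L sb e, F.Ok L sb e → f J F L sb ≤ g J F L sb) :
    Ev d f := by
  obtain ⟨C, hC, h⟩ := h
  exact ⟨C, hC, fun J F L sb e he => (hfg J F L sb e he).trans (h J F L sb e he)⟩

lemma Ev.add (h : Ev d f) (h' : Ev d g) : Ev d (fun J F L sb => f J F L sb + g J F L sb) := by
  obtain ⟨C, hC, h⟩ := h
  obtain ⟨C', hC', h'⟩ := h'
  refine ⟨C + C', by positivity, fun J F L sb e he => ?_⟩
  have h1 := h J F L sb e he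
  have h2 := h' J F L sb e he
  linarith

lemma Ev.smul (h : Ev d f) {c : ℝ} (hc : 0 ≤ c) : Ev d (fun J F L sb => c * f J F L sb) := by
  obtain ⟨C, hC, h⟩ := h
  refine ⟨c * C, by positivity, fun J F L sb e he => ?_⟩
  have h1 := mul_le_mul_of_nonneg_left (h J F L sb e he) hc
  linarith

lemma Ev.const (c : ℝ) : Ev d (fun _ _ _ _ => c) := by
  refine ⟨|c|, abs_nonneg c, fun J F L sb e he => ?_⟩
  have h1 := er_ge_one (J := J) he.e0
  have h2 := le_abs_self c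
  have h3 := abs_nonneg c
  nlinarith

/-- A bound with a constant multiple of `er`. -/
lemma Ev.of (C : ℝ) (h : ∀ J (F : Cf d J) L sb e, F.Ok L sb e → f J F L sb ≤ C * er J e) :
    Ev d f := by
  refine ⟨|C|, abs_nonneg C, fun J F L sb e he => (h J F L sb e he).trans ?_⟩
  exact mul_le_mul_of_nonneg_right (le_abs_self C) (er_nonneg he.e0)

lemma Es.mono (h : Es d g) (hfg : ∀ J F L sb, f J F L sb ≤ g J F L sb) : Es d f := by
  intro ε hε
  obtain ⟨θ, hθ, J₀, h⟩ := h ε hε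
  exact ⟨θ, hθ, J₀, fun J hJ F L sb e he hF => (hfg J F L sb).trans (h J hJ F L sb e he hF)⟩

lemma Es.mono' (h : Es d g) (hfg : ∀ J F L sb e, F.Ok L sb e → f J F L sb ≤ g J F L sb) :
    Es d f := by
  intro ε hε
  obtain ⟨θ, hθ, J₀, h⟩ := h ε hε
  exact ⟨θ, hθ, J₀, fun J hJ F L sb e he hF =>
    (hfg J F L sb e hF).trans (h J hJ F L sb e he hF)⟩

lemma Es.add (h : Es d f) (h' : Es d g) : Es d (fun J F L sb => f J F L sb + g J F L sb) := by
  intro ε hε
  obtain ⟨θ, hθ, J₀, h⟩ := h (ε / 2) (by positivity)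
  obtain ⟨θ', hθ', J₀', h'⟩ := h' (ε / 2) (by positivity)
  refine ⟨min θ θ', lt_min hθ hθ', max J₀ J₀', fun J hJ F L sb e he hF => ?_⟩
  have hl := lm_nonneg J
  have h1 := h J (le_trans (le_max_left _ _) hJ) F L sb e
    (he.trans (mul_le_mul_of_nonneg_right (min_le_left _ _) hl)) hF
  have h2 := h' J (le_trans (le_max_right _ _) hJ) F L sb e
    (he.trans (mul_le_mul_of_nonneg_right (min_le_right _ _) hl)) hF
  linarith

lemma Es.smul (h : Es d f) {c : ℝ} (hc : 0 ≤ c) : Es d (fun J F L sb => c * f J F L sb) := by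
  intro ε hε
  obtain ⟨θ, hθ, J₀, h⟩ := h (ε / (c + 1)) (by positivity)
  refine ⟨θ, hθ, J₀, fun J hJ F L sb e he hF => ?_⟩
  have h1 := mul_le_mul_of_nonneg_left (h J hJ F L sb e he hF) hc
  have hl := lm_nonneg J
  refine h1.trans ?_
  have : c * (ε / (c + 1)) ≤ ε := by
    rw [mul_div_assoc', div_le_iff₀ (by positivity)]
    nlinarith
  calc c * (ε / (c + 1) * lm J) = (c * (ε / (c + 1))) * lm J := by ring
    _ ≤ ε * lm J := mul_le_mul_of_nonneg_right this hl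

/-- The basic conversion. -/
lemma Es.of_ev (h : Ev d f) : Es d f := by
  intro ε hε
  obtain ⟨C, hC, h⟩ := h
  obtain ⟨J₀, _, hJ₀⟩ := er_small (ε := ε / (2 * (C + 1))) (by positivity)
  refine ⟨ε / (2 * (C + 1)), by positivity, J₀, fun J hJ F L sb e he hF => ?_⟩
  have h1 := h J F L sb e hF
  have h2 := hJ₀ J hJ e
  have hl := lm_nonneg J
  have h3 : C * er J e ≤ C * (ε / (2 * (C + 1)) * lm J + ε / (2 * (C + 1)) * lm J) :=
    mul_le_mul_of_nonneg_left (by linarith) hC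
  have h4 : C * (ε / (2 * (C + 1)) * lm J + ε / (2 * (C + 1)) * lm J) =
      (C / (C + 1)) * (ε * lm J) := by
    field_simp
    ring
  have h5 : C / (C + 1) ≤ 1 := by
    rw [div_le_one (by positivity)]
    linarith
  have h6 : (C / (C + 1)) * (ε * lm J) ≤ 1 * (ε * lm J) :=
    mul_le_mul_of_nonneg_right h5 (by positivity)
  linarith

/-- The same for other objects: an error `C er J e` is at most `ε lm J`. -/
lemma er_le_eps {C ε : ℝ} (hC : 0 ≤ C) (hε : 0 < ε) : ∃ θ : ℝ, 0 < θ ∧ ∃ J₀ : ℕ, 1 ≤ J₀ ∧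
    ∀ J : ℕ, J₀ ≤ J → ∀ e : ℝ, e ≤ θ * lm J → C * er J e ≤ ε * lm J := by
  obtain ⟨J₀, hJ1, hJ₀⟩ := er_small (ε := ε / (2 * (C + 1))) (by positivity)
  refine ⟨ε / (2 * (C + 1)), by positivity, J₀, hJ1, fun J hJ e he => ?_⟩
  have h2 := hJ₀ J hJ e
  have hl := lm_nonneg J
  have h3 : C * er J e ≤ C * (ε / (2 * (C + 1)) * lm J + ε / (2 * (C + 1)) * lm J) :=
    mul_le_mul_of_nonneg_left (by linarith) hC
  have h4 : C * (ε / (2 * (C + 1)) * lm J + ε / (2 * (C + 1)) * lm J) =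
      (C / (C + 1)) * (ε * lm J) := by
    field_simp
    ring
  have h5 : C / (C + 1) ≤ 1 := by
    rw [div_le_one (by positivity)]
    linarith
  have h6 : (C / (C + 1)) * (ε * lm J) ≤ 1 * (ε * lm J) :=
    mul_le_mul_of_nonneg_right h5 (by positivity)
  linarith

end Pool.KTH
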