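import Pool.Agent.H12.KTH.Stmts2

/-!
# Algebra of the error terms, explicit deficits
-/

set_option autoImplicit false

namespace Pool.KTH

open Finset Real
open Pool.Agent.H49.Ent Pool.Agent.H32.Dense

variable {d : ℕ} {f g : ∀ J : ℕ, Cf d J → ℝ → ℝ → ℝ} {k k' : ℝ}

lemma Evk.mono (h : Evk d k g) (hk : k ≤ k') (hfg : ∀ J F L sb, f J F L sb ≤ g J F L sb) :
    Evk d k' f := by
  obtain ⟨C, hC, h⟩ := h
  exact ⟨C, hC, fun J F L sb K G he => by
    have h1 := h J F L sb K G he
    have h2 := hfg J F L sb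
    have h3 := mul_le_mul_of_nonneg_right hk he.K0
    linarith⟩

/-- The comparison may use `Okk`. -/
lemma Evk.mono' (h : Evk d k g) (hk : k ≤ k')
    (hfg : ∀ J F L sb K G, F.Okk L sb K G → f J F L sb ≤ g J F L sb) : Evk d k' f := by
  obtain ⟨C, hC, h⟩ := h
  exact ⟨C, hC, fun J F L sb K G he => by
    have h1 := h J F L sb K G he
    have h2 := hfg J F L sb K G he
    have h3 := mul_le_mul_of_nonneg_right hk he.K0
    linarith⟩

lemma Evk.add (h : Evk d k f) (h' : Evk d k' g) :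
    Evk d (k + k') (fun J F L sb => f J F L sb + g J F L sb) := by
  obtain ⟨C, hC, h⟩ := h
  obtain ⟨C', hC', h'⟩ := h'
  refine ⟨C + C', by positivity, fun J F L sb K G he => ?_⟩
  have h1 := h J F L sb K G he
  have h2 := h' J F L sb K G he
  linarith

lemma Evk.smul (h : Evk d k f) {c : ℝ} (hc : 0 ≤ c) :
    Evk d (c * k) (fun J F L sb => c * f J F L sb) := by
  obtain ⟨C, hC, h⟩ := h
  refine ⟨c * C, by positivity, fun J F L sb K G he => ?_⟩
  have h1 := mul_le_mul_of_nonneg_left (h J F L sb K G he) hc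
  linarith

/-- A bound with a constant multiple of `er`. -/
lemma Evk.of (C : ℝ)
    (h : ∀ J (F : Cf d J) L sb K G, F.Okk L sb K G → f J F L sb ≤ k * K + C * er J G) :
    Evk d k f := by
  refine ⟨|C|, abs_nonneg C, fun J F L sb K G he => (h J F L sb K G he).trans ?_⟩
  have := mul_le_mul_of_nonneg_right (le_abs_self C) (er_nonneg (J := J) he.G0)
  linarith

/-- A bound without `er` (fields of `Okk`). -/
lemma Evk.of_le (h : ∀ J (F : Cf d J) L sb K G, F.Okk L sb K G → f J F L sb ≤ k * K) :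
    Evk d k f :=
  ⟨0, le_rfl, fun J F L sb K G he => by
    have := h J F L sb K G he
    linarith⟩

lemma Evk.const (c : ℝ) : Evk d 0 (fun _ _ _ _ => c) := by
  refine ⟨|c|, abs_nonneg c, fun J F L sb K G he => ?_⟩
  have h1 := er_ge_one (J := J) he.G0
  have h2 := le_abs_self c
  have h3 := abs_nonneg c
  nlinarith

lemma Esk.of_evk (h : Evk d k f) : Esk d k f := by
  intro ε hε
  obtain ⟨C, hC, h⟩ := h
  refine ⟨C, hC, 0, fun J _ F L sb K G he => ?_⟩
  have h1 := h J F L sb K G he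
  have h2 := lm_nonneg J
  have h3 : 0 ≤ ε * lm J := by positivity
  linarith

lemma Esk.mono (h : Esk d k g) (hk : k ≤ k') (hfg : ∀ J F L sb, f J F L sb ≤ g J F L sb) :
    Esk d k' f := by
  intro ε hε
  obtain ⟨C, hC, J₀, h⟩ := h ε hε
  exact ⟨C, hC, J₀, fun J hJ F L sb K G he => by
    have h1 := h J hJ F L sb K G he
    have h2 := hfg J F L sb
    have h3 := mul_le_mul_of_nonneg_right hk he.K0
    linarith⟩

lemma Esk.mono' (h : Esk d k g) (hk : k ≤ k')
    (hfg : ∀ J F L sb K G, F.Okk L sb K G → f J F L sb ≤ g J F L sb) : Esk d k' f := by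
  intro ε hε
  obtain ⟨C, hC, J₀, h⟩ := h ε hε
  exact ⟨C, hC, J₀, fun J hJ F L sb K G he => by
    have h1 := h J hJ F L sb K G he
    have h2 := hfg J F L sb K G he
    have h3 := mul_le_mul_of_nonneg_right hk he.K0
    linarith⟩

lemma Esk.add (h : Esk d k f) (h' : Esk d k' g) :
    Esk d (k + k') (fun J F L sb => f J F L sb + g J F L sb) := by
  intro ε hε
  obtain ⟨C, hC, J₀, h⟩ := h (ε / 2) (by positivity)
  obtain ⟨C', hC', J₀', h'⟩ := h' (ε / 2) (by positivity)
  refine ⟨C + C', by positivity, max J₀ J₀', fun J hJ F L sb K G he => ?_⟩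
  have h1 := h J (le_trans (le_max_left _ _) hJ) F L sb K G he
  have h2 := h' J (le_trans (le_max_right _ _) hJ) F L sb K G he
  linarith

lemma Esk.smul (h : Esk d k f) {c : ℝ} (hc : 0 ≤ c) :
    Esk d (c * k) (fun J F L sb => c * f J F L sb) := by
  intro ε hε
  obtain ⟨C, hC, J₀, h⟩ := h (ε / (c + 1)) (by positivity)
  refine ⟨c * C, by positivity, J₀, fun J hJ F L sb K G he => ?_⟩
  have h1 := mul_le_mul_of_nonneg_left (h J hJ F L sb K G he) hc
  have hl := lm_nonneg J
  have h4 : c * (ε / (c + 1)) ≤ ε := by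
    rw [mul_div_assoc', div_le_iff₀ (by positivity)]
    nlinarith
  have h5 : c * (ε / (c + 1) * lm J) ≤ ε * lm J := by
    calc c * (ε / (c + 1) * lm J) = (c * (ε / (c + 1))) * lm J := by ring
      _ ≤ ε * lm J := mul_le_mul_of_nonneg_right h4 hl
  linarith

end Pool.KTH
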