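import Pool.Agent.H12.KTH.Defs

/-!
# Kakeya sets in dimension `n ≥ 8`: statements

Every row is a `def XXXStmt : Prop`; the docstring contains the proof.  Page:
`/team-store/KTH_PLAN_helper12.md`.  Units in the docstrings: `lm J = 1`, `M = 2 ^ J`;
`H(X|Y)` is `CH q X Y`.  `Z` is always in the conditioning.  Errors: `C * er J e`, where
`er J e = e + 1 + log (J + 2)`, or `ε * lm J`.  Library: `H32/Dense/EntX` (`CH_chain`,
`CH_mono_cond`, `CH_mono_left`, `CH_congr`, `CH_subadd`, `CH_le_add`, `CH_le_cross` (Gibbs),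
`CH_le_card`, `CH_le_vec`, `CH_le_int`), `Tail` (`CH_time_le`, `CH_le_tail`), `Times`, `Pair`
(models for the proofs: `v1_le`, `r_le`, `X_le`, `rd_close`, `gap_le`, `pos_lin`), `Conf`, `Marg`,
and `H24/KTH/Top` (`cap`, `lev`, `lvv`, `dsv`, `Yf`; rows of the second half of the board).
`has C K values` means: `CH_le_vec` or `CH_le_int` with `L = C K`.
-/

set_option autoImplicit false

namespace Pool.KTH

open Finset Real
open Pool.Agent.H49.Ent Pool.Agent.H32.Dense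
open Pool.Agent.H24.KTH (dsv lvv lev cap Yf kp LevOne LevPlus LevZero)

variable {d J : ℕ}

/-! ### Abbreviations -/

/-- the directions of the lines 0, 1 -/
def Cf.v01 (F : Cf d J) (w : F.Ω) : (Fin d → ℤ) × (Fin d → ℤ) := (F.v₀ w, F.v₁ w)
/-- the directions of the lines 1, 2 -/
def Cf.v12 (F : Cf d J) (w : F.Ω) : (Fin d → ℤ) × (Fin d → ℤ) := (F.v₁ w, F.v₂ w)
/-- the directions of the three lines -/
def Cf.v3 (F : Cf d J) (w : F.Ω) : (Fin d → ℤ) × (Fin d → ℤ) × (Fin d → ℤ) :=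
  (F.v₀ w, F.v₁ w, F.v₂ w)
/-- the time of `O` -/
noncomputable def Cf.TO (F : Cf d J) (w : F.Ω) : ℤ := F.s w + F.c w
/-- the time of `Y` -/
noncomputable def Cf.TY (F : Cf d J) (w : F.Ω) : ℤ := F.tr w + F.c₂ w
/-- mean closeness of two times -/
noncomputable def Cf.eg (F : Cf d J) (x y : F.Ω → ℤ) : ℝ := Ex F.q (fun w => gp J (x w) (y w))
/-- a coefficient is not large -/
noncomputable def Cf.big (F : Cf d J) (x : F.Ω → ℤ) : ℝ :=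
  Ex F.q (fun w => Real.log (1 + |(x w : ℝ)| / 2 ^ J))
/-- a coefficient is not small -/
noncomputable def Cf.sml (F : Cf d J) (x : F.Ω → ℤ) : ℝ :=
  Ex F.q (fun w => Real.log (1 + 2 ^ J / max 1 |(x w : ℝ)|))

/-- `f ≤ C (e + 1 + log (J + 2))` for all configurations -/
def Ev (d : ℕ) (f : ∀ J : ℕ, Cf d J → ℝ → ℝ → ℝ) : Prop :=
  ∃ C : ℝ, 0 ≤ C ∧ ∀ (J : ℕ) (F : Cf d J) (L sb e : ℝ), F.Ok L sb e → f J F L sb ≤ C * er J e

/-- `f ≤ ε log M` for all configurations with small deficit -/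
def Es (d : ℕ) (f : ∀ J : ℕ, Cf d J → ℝ → ℝ → ℝ) : Prop :=
  ∀ ε : ℝ, 0 < ε → ∃ θ : ℝ, 0 < θ ∧ ∃ J₀ : ℕ, ∀ J : ℕ, J₀ ≤ J → ∀ (F : Cf d J) (L sb e : ℝ),
    e ≤ θ * lm J → F.Ok L sb e → f J F L sb ≤ ε * lm J

/-! ### 1. Toolbox -/

/-- CEN: entropy of an integer near `x` at the scale `K` (both determined by `W`).
Proof. `CH_le_cross` with `Q z n = c / (K (1 + |n - x| / K) ^ 2)`;
`∑_n 1 / (K (1 + |n - x| / K) ^ 2) ≤ 6` for `1 ≤ K` (finite partial sums). -/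
def CENStmt : Prop :=
  ∃ C : ℝ, 0 ≤ C ∧ ∀ (Ω δ : Type) [Fintype Ω] (q : Ω → ℝ) (W : Ω → δ) (X : Ω → ℤ)
    (x K : Ω → ℝ), (∀ w, 0 ≤ q w) → ∑ w, q w = 1 → Det q W x → Det q W K →
    (∀ w, 0 < q w → 1 ≤ K w) →
    CH q X W ≤ Ex q (fun w => Real.log (K w)) +
      2 * Ex q (fun w => Real.log (1 + |(X w : ℝ) - x w| / K w)) + C

/-- GAP: a uniform time is far from a time which is determined by the conditioning.
Proof. `CH_le_cross` with `Q z x = c 2 ^ (-J) (1 + 2 ^ J / max 1 |x - y|) ^ (1/2)` on `0 ≤ x < 2 ^ J`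
(the sum over `x` of the last factor is at most `C 2 ^ J`, because
`(1 + a) ^ (1/2) ≤ 1 + a ^ (1/2)` and `∑_(k ≤ M) k ^ (-1/2) ≤ 2 M ^ (1/2)`). So
`lm - e ≤ H(x|W) ≤ lm + log C - E gp / 2`. -/
def GAPStmt : Prop :=
  ∃ C : ℝ, 0 ≤ C ∧ ∀ (J : ℕ) (Ω δ : Type) [Fintype Ω] (q : Ω → ℝ) (W : Ω → δ) (x y : Ω → ℤ)
    (e : ℝ), (∀ w, 0 ≤ q w) → ∑ w, q w = 1 → (∀ w, 0 < q w → 0 ≤ x w ∧ x w < 2 ^ J) →
    Det q W y → lm J - e ≤ CH q x W → Ex q (fun w => gp J (x w) (y w)) ≤ 2 * e + C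

/-! ### 2. Times -/

/-- TMS: each of the four free times is uniform given all the other variables, and all the times
are far from each other.
Proof. `ct` and the upper bound `lm` for each of the other three; then GAP. -/
def TMSStmt : Prop :=
  ∀ d : ℕ, (∀ (J : ℕ) (F : Cf d J) (L sb e : ℝ), F.Ok L sb e →
    lm J - e ≤ CH F.q F.t₁ (fun w => (F.v3 w, (F.t w, F.s w), (F.r w, F.tr w, F.ta w), F.Z w)) ∧
    lm J - e ≤ CH F.q F.r (fun w => (F.v3 w, (F.t w, F.s w), (F.t₁ w, F.tr w, F.ta w), F.Z w)) ∧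
    lm J - e ≤ CH F.q F.tr (fun w => (F.v3 w, (F.t w, F.s w), (F.t₁ w, F.r w, F.ta w), F.Z w)) ∧
    lm J - e ≤ CH F.q F.ta (fun w => (F.v3 w, (F.t w, F.s w), (F.t₁ w, F.r w, F.tr w), F.Z w))) ∧
  Ev d (fun _ F _ _ => F.eg F.t F.s + F.eg F.t₁ F.t + F.eg F.t₁ F.s + F.eg F.r F.t +
    F.eg F.r F.s + F.eg F.r F.t₁ + F.eg F.tr F.s + F.eg F.ta F.s + F.eg F.ta F.tr +
    F.eg F.ta F.TO)

/-- KPS: the ratios are neither large nor small.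
Proof. `kap_le` and `kap_swap` of `H32/Dense/Times`: `|k₁| ≤ 9 M / max 1 |t₁ - t|`,
`|k₁|⁻¹ ≤ 9 M / max 1 |t₁ - s|`, same for `k₂ = kap s tr ta`; TMS. -/
def KPSStmt : Prop :=
  ∀ d : ℕ, Ev d (fun _ F _ _ => Ex F.q (fun w => Real.log (1 + |F.k₁ w|)) +
    Ex F.q (fun w => Real.log (1 + |F.k₁ w|⁻¹)) + Ex F.q (fun w => Real.log (1 + |F.k₂ w|)) +
    Ex F.q (fun w => Real.log (1 + |F.k₂ w|⁻¹)))

/-- CGP: the coefficients are neither large nor small.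
Proof. `log_ct`, `log_ct_le`, `log_floor_mul`, `log_floor_mul_le` of `H32/Dense/Times`, with
KPS and TMS. -/
def CGPStmt : Prop :=
  ∀ d : ℕ, Ev d (fun _ F _ _ => F.big F.c + F.sml F.c + F.big F.c₂ + F.sml F.c₂)

/-- UPT: upper bounds.
Proof. `CH_le_tail` and CGP; `|s + c| ≤ M + |c|`. -/
def UPTStmt : Prop :=
  ∀ d : ℕ, Ev d (fun J F _ _ => CH F.q F.c F.Z - lm J) ∧ Ev d (fun J F _ _ => CH F.q F.c₂ F.Z - lm J) ∧
    Ev d (fun J F _ _ => CH F.q F.TO F.Z - lm J) ∧ Ev d (fun J F _ _ => CH F.q F.TY F.Z - lm J)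

/-- UFC: the first coefficient is uniform.
Proof. (1) Given also `t₁`: `c = ⌊k₁ (r - t)⌋` with `k₁` known; `r` is uniform given everything
else (TMS), and `r` has `1 + |k₁|⁻¹` values given `c` (as in `PCfg.r_le`). (2) `s` is uniform given
`(v₀, v₁), t` (`cs`), then (1). (3) `H(r | .., c) = H(r | ..) + H(c | r, ..) - H(c | ..)`; here
`H(c | ..) ≤ lm + C er` (UPT) and `H(c | r, t, s, ..) ≥ H(t₁ | r, ..) - H(t₁ | c, r, t, s)`, where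
`1 / (hat t₁ - t)` lies in an interval of length `1 / (|t - s| |r - t|)`, so `t₁` has at most
`C (M / max 1 |t - s|) (M / max 1 |r - t|)` values; TMS. -/
def UFCStmt : Prop :=
  ∀ d : ℕ, Ev d (fun J F _ _ => lm J - CH F.q F.c
      (fun w => (F.v3 w, (F.t w, F.s w, F.t₁ w, F.tr w, F.ta w), F.Z w))) ∧
    Ev d (fun J F _ _ => 2 * lm J - CH F.q (fun w => (F.s w, F.c w))
      (fun w => (F.v01 w, F.t w, F.Z w))) ∧
    Ev d (fun J F _ _ => lm J - CH F.q F.r (fun w => (F.v01 w, (F.t w, F.s w, F.c w), F.Z w)))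

/-- UFT: `t₁` and the time of `O` are uniform given the lines 0, 1 and the times `t`, `r`.
Proof. `t₁` is uniform (TMS). Given `(v₀, v₁), t, r, t₁` the time `s` is uniform [`cs` and `ct`:
`H(s, t₁, r | v₀ v₁ t) ≥ 3 lm - 2 e`], and
`s ↦ s + ⌊k₁ (r - t)⌋` has the slope `(hat t₁ - r) / (hat t₁ - t)`: given `T_O`, `s` has
`1 + |t₁ - t| / |t₁ - r| ≤ 1 + M / |t₁ - r|` values up to a constant (`hat` moves `t₁` by at most
2; `hat t s t₁` depends on `s`: it has three possible values, put this choice in the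
conditioning); TMS. -/
def UFTStmt : Prop :=
  ∀ d : ℕ, Ev d (fun J F _ _ => 2 * lm J - CH F.q (fun w => (F.t₁ w, F.TO w))
    (fun w => (F.v01 w, (F.t w, F.r w), F.Z w)))

/-- UFD: the second coefficient is uniform.
Proof. (1) `tr` is uniform; given `tr` also, `c` is uniform (UFC (1)) and `c₂ = ⌊k₂ c⌋` with
`k₂ = kap s tr ta` known: `c` has `1 + |k₂|⁻¹` values given `c₂`. (2) from (1) by the chain rule
and `H(tr | ..) ≤ lm`. (3) `H(ta | .., c₂) = H(ta, c₂ | ..) - H(c₂ | ..) ≥ H(ta | ..) +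
H(c₂ | ta, ..) - lm - C er` with UPT. (4) `tr ↦ tr + ⌊kap s tr ta * c⌋`,
`kap s tr ta = (hat ta - tr) / (hat ta - s)`, has the slope `(hat ta - s - c) / (hat ta - s)`:
given `T_Y`, `tr` has `1 + |ta - s| / |ta - T_O| ≤ 1 + M / |ta - T_O|` values; TMS
(`eg ta TO`); for `ta = T_O` use `K = M`. -/
def UFDStmt : Prop :=
  ∀ d : ℕ, Ev d (fun J F _ _ => 2 * lm J - CH F.q (fun w => (F.tr w, F.c₂ w))
      (fun w => (F.v3 w, (F.t w, F.s w, F.ta w), F.Z w))) ∧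
    Ev d (fun J F _ _ => lm J - CH F.q F.c₂ (fun w => (F.v3 w, (F.t w, F.s w, F.tr w), F.Z w))) ∧
    Ev d (fun J F _ _ => lm J - CH F.q F.ta
      (fun w => (F.v3 w, (F.t w, F.s w, F.tr w, F.c₂ w), F.Z w))) ∧
    Ev d (fun J F _ _ => 2 * lm J - CH F.q (fun w => (F.c w, F.TY w))
      (fun w => (F.v3 w, (F.t w, F.s w, F.ta w), F.Z w)))

/-- DRV: the derived families have uniform times.
Proof. `O` is a function of `(v₀, v₁), s, c` (and `Z`): UFC (3), conditioning reduces entropy.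
`Y` is a function of `v₁, v₂, tr, c₂`: UFD (3). (The position `u₀` is a function of `v₀, Z`.) -/
def DRVStmt : Prop :=
  ∀ d : ℕ, ∃ C : ℝ, 0 ≤ C ∧ ∀ (J : ℕ) (F : Cf d J) (L sb e : ℝ), F.Ok L sb e →
    F.FL.Tm (C * er J e) ∧ F.FI.Tm (C * er J e)

/-! ### 3. Geometry -/

/-- SEP: the crossing time is determined up to `M / |v₀ - v₁|`.
Proof. (1) `|(u₀ - u₁)_k + (t / M) (v₀ - v₁)_k| < 1` with `k` the coordinate of the maximum: `t`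
has `C M / max 1 |v₀ - v₁|` values given `v₀, v₁, Z`. (2) `O` is `(T_O, ⌊X₀ s + (c / M) v₁⌋)`, `c = T_O - s`,
`|X₀ s - X₂ s| < 1`, so `|x - u₂ - (T_O / M) v₁ + (s / M) (v₁ - v₂)| ≤ 2` coordinatewise. (`log (2 L + 1) ≤ lvv + C`
for `L = C M / max 1 |v₀ - v₁|`, since `lvv ≥ - log 2`.) -/
def SEPStmt : Prop :=
  ∀ d : ℕ, 1 ≤ d → Ev d (fun _ F _ _ => CH F.q F.t (fun w => (F.v01 w, F.Z w)) - F.y01) ∧
    Ev d (fun _ F _ _ => CH F.q F.s (fun w => (F.v12 w, F.O w, F.Z w)) - F.y12)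

/-- PAR: upper bound for `O`, `Y` in the parallelogram of two lines.
Proof. The time: UPT. Given the time, `x = X₀ s + (c / M) v₁ = X₀ (T_O) + (c / M) (v₁ - v₀)`;
`g = ⌊(c / M) (v₁ - v₀)_k⌋`, `k` the coordinate of the maximum, has entropy at most
`log (max 1 |v₀ - v₁|) + 2 E log (2 + |c| / M) + C` (CEN, `x = 0`, `K = max 1 |v₀ - v₁|`,
`log K = lm - lvv`) and given `g, v₀, v₁, T_O` the point has boundedly many values. For `Y`: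
`X₂ tr + (c₂ / M) v₁ = X₂ (T_Y) + (c₂ / M) (v₁ - v₂)`. -/
def PARStmt : Prop :=
  ∀ d : ℕ, 1 ≤ d →
    Ev d (fun J F _ _ => CH F.q F.O (fun w => (F.v01 w, F.Z w)) + F.y01 - 2 * lm J) ∧
    Ev d (fun J F _ _ => CH F.q F.Y (fun w => (F.v12 w, F.Z w)) + F.y12 - 2 * lm J)

/-- PAL: lower bounds.
Proof. (1) `H(s, c | v₀ v₁ t) ≥ 2 lm` (UFC (2)); given `O, v₀, v₁` (so `T_O` and `X₀ (T_O)`) the
vector `(c / M) (v₁ - v₀)` is known up to `2`: `c` (hence `s = T_O - c`) has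
`C M / max 1 |v₀ - v₁|` values. (2) `H(tr, c₂ | v's, t, s, ta) ≥ 2 lm` (UFD (1)); given
`Y, v₁, v₂` the number `c₂` has `C M / max 1 |v₁ - v₂|` values. -/
def PALStmt : Prop :=
  ∀ d : ℕ, 1 ≤ d →
    Ev d (fun J F _ _ => 2 * lm J - F.y01 - CH F.q F.O (fun w => (F.v01 w, F.t w, F.Z w))) ∧
    Ev d (fun J F _ _ => 2 * lm J - F.y12 - CH F.q F.Y
      (fun w => (F.v12 w, (F.s w, F.ta w), F.Z w)))

/-- DIR: `O - C` and `Y - C₂` are parallel to the line 1.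
Proof. `v₁ = (M / c) (x_O - x_C) + O(M / |c|)` coordinatewise, `c = T_O - s`: as
`PCfg.v1_le`; CGP. -/
def DIRStmt : Prop :=
  ∀ d : ℕ, Ev d (fun _ F _ _ => CH F.q F.v₁ (fun w => (F.O w, F.C w, F.Z w))) ∧
    Ev d (fun _ F _ _ => CH F.q F.v₁ (fun w => (F.Y w, F.C₂ w, F.Z w)))

/-- CHD: `O` lies on the chord `A B` and `Y` on the chord `A₂ O`.
Proof. With exact arithmetic (`P` the common point of the lines 0, 1 at `t`),
`O = (1 - k₁) A + k₁ B` in space-time. Rounding: `c = k₁ (r - t) + O(1)` moves the point by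
`O(1)`, the crossing is only up to `1` (factor `1 + |k₁|`), `hat` moves `t₁` by at most 2.
Knowing `T_O, A, B`: `k₁ = (T_O - t₁) / (r - t₁)` up to `C / |r - t₁|`, and
`|x_B - x_A| ≤ |r - t| + |t₁ - t| + C ≤ C M`. So the position has `C (M / |r - t₁| + |k₁|)`
values per coordinate; TMS, KPS. For `Y`: `Y = (1 - k₂) A₂ + k₂ O`,
`k₂ = (T_Y - ta) / (T_O - ta)` up to `C (1 + |k₂|) / |T_O - ta|`,
`|x_O - x_(A₂)| ≤ C (M + |c|)`; CGP, `eg ta TO`. -/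
def CHDStmt : Prop :=
  ∀ d : ℕ, Ev d (fun _ F _ _ => CH F.q F.O (fun w => ((F.A w, F.B w), F.TO w, F.Z w))) ∧
    Ev d (fun _ F _ _ => CH F.q F.Y (fun w => ((F.A₂ w, F.O w), F.TY w, F.Z w)))

/-- ETA: `Y - l₂ (T_Y)` is parallel to `v₁ - v₂`.
Proof. `(c₂ / M) (v₁ - v₂)` is known from `Y, v₂, Z` up to `2`. Put the coordinate `k` of the
maximum of `|v₁ - v₂|` and its dyadic class `b` in the conditioning (`log d + log (J + 2)`);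
`(v₁ - v₂)_k` has `2 ^ (b + 1)` values, `log (2 ^ b) ≤ lm - lvv`; the other coordinates
are `(v₁ - v₂)_k` times the ratio, which is known up to `C M / (|c₂| 2 ^ b)` (or use
`|v₁ - v₂|_j ≤ 2 ^ (b + 1) ≤ C M / |c₂|` if `|c₂| 2 ^ b ≤ 10 M`): `C M / |c₂|` values; CGP. -/
def ETAStmt : Prop :=
  ∀ d : ℕ, 1 ≤ d → Ev d (fun J F _ _ => F.et + F.y12 - lm J)

/-- T1L: lower bound for the time `t₁`.
Proof. `H(t₁ | v₀ v₁ O r) = H(t₁, O | v₀ v₁ r) - H(O | v₀ v₁ r) ≥ 2 lm - (2 lm - y01)`: the first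
is `≥ H(t₁, T_O | v₀ v₁ t r)` (UFT), the second PAR. -/
def T1LStmt : Prop :=
  ∀ d : ℕ, 1 ≤ d → Ev d (fun _ F _ _ => F.y01 - CH F.q F.t₁
    (fun w => (F.v01 w, (F.O w, F.r w), F.Z w)))

/-! ### 4. Córdoba's argument (KP 1) -/

/-- SCL: scalar families (direction `g`, position `x`, time `T`; `x` need not be determined
by `g`).
Proof. `T = 2 ^ J κ + T'`, `0 ≤ T' < 2 ^ J`; put `κ` in the side information
(`H(κ) ≤ C + 2 E log (1 + |T| / 2 ^ J)` by `CH_le_tail` with `M = 1`). `Pool.KAL.KP1.kp_one` (`KP 1` of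
`H9/KA/Defs`) for the family with `d = g / 2 ^ (J + 1)`, `u = (x + κ g) / 2 ^ (J + 1)`, `T = T'`
(set `d = u = 0` off the support): `D J` is `⌊g / 2⌋`, `X J` is `⌊(x + T g / 2 ^ J) / 2⌋`.
Hence `H(g | κ Z) ≤ H(D J) + log 2 ≤ H(X J | T' κ Z) + ..`. -/
def SCLStmt : Prop :=
  ∀ ε : ℝ, 0 < ε → ∃ θ : ℝ, 0 < θ ∧ ∃ J₀ : ℕ, ∀ J : ℕ, J₀ ≤ J → ∀ (Ω ζ : Type) [Fintype Ω]
    (q : Ω → ℝ) (Z : Ω → ζ) (g : Ω → ℤ) (x : Ω → ℝ) (T : Ω → ℤ), (∀ w, 0 ≤ q w) →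
    ∑ w, q w = 1 → (∀ w, 0 < q w → |g w| ≤ 2 * 2 ^ J) →
    Ex q (fun w => Real.log (1 + |(T w : ℝ)| / 2 ^ J)) ≤ θ * lm J →
    lm J - θ * lm J ≤ CH q T (fun w => ((g w, x w), Z w)) →
    CH q g Z ≤ CH q (fun w => ⌊x w + T w / 2 ^ J * g w⌋) (fun w => (T w, Z w)) + ε * lm J

/-- FCK (FACT K): a line `v'` crossing the line `v` at the time `t` is determined by `v` and a
point of `v'` at a time `r` which is uniform given both lines.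
Proof. `k` = coordinate of the maximum of `|v' - v|`, `b` = its dyadic class,
`E_j = ⌊2 ^ b (v' - v)_j / (v' - v)_k⌋`, `Z' = (v, k, b, E, Z)`; `(Z', (v' - v)_k)` determines
`v'` up to boundedly many values. SCL: `g = (v' - v)_k`, `x = (u' - u)_k`, `T = r`:
`H(g|Z') ≤ H(⌊(X' - X)_k (r)⌋ | r, Z')`. So, `B = (r, rd (X' r))`,
`H(v'|B Z') = H(v'|Z') + H(r|v' Z') - H(B|Z') ≤ H(g|Z') + lm - (lm + H(g|Z')) ≤ ε`. And
`H(Z'|v, B, Z)` is small: `X' r - X r = ((r - t) / M) (v' - v) + O(1)`, so `E_j` is the quotient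
of two known numbers up to `C M / |r - t|` (if `|r - t| 2 ^ b ≥ 10 M`; otherwise
`|E_j| ≤ 2 ^ b ≤ 10 M / |r - t|`); GAP for `r, t`. Total error `C (e + 1 + log (J + 2))` plus
that of SCL. -/
def FCKStmt : Prop :=
  ∀ d : ℕ, 1 ≤ d → ∀ ε : ℝ, 0 < ε → ∃ θ : ℝ, 0 < θ ∧ ∃ J₀ : ℕ, ∀ J : ℕ, J₀ ≤ J →
    ∀ (Ω ζ : Type) [Fintype Ω] (q : Ω → ℝ) (Z : Ω → ζ) (v v' : Ω → Fin d → ℤ)
    (u u' : Ω → Fin d → ℝ) (t r : Ω → ℤ), (∀ w, 0 ≤ q w) → ∑ w, q w = 1 →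
    (∀ w, 0 < q w → ∀ k, |v w k| ≤ 2 ^ J) → (∀ w, 0 < q w → ∀ k, |v' w k| ≤ 2 ^ J) →
    Det q (fun w => (v w, Z w)) u → Det q (fun w => (v' w, Z w)) u' →
    (∀ w, 0 < q w → 0 ≤ t w ∧ t w < 2 ^ J) → (∀ w, 0 < q w → 0 ≤ r w ∧ r w < 2 ^ J) →
    (∀ w, 0 < q w → rd (pos (2 ^ J) (u w) (v w) (t w)) = rd (pos (2 ^ J) (u' w) (v' w) (t w))) →
    lm J - θ * lm J ≤ CH q r (fun w => ((v w, v' w), t w, Z w)) →
    CH q v' (fun w => (v w, pp J u' v' r w, Z w)) ≤ ε * lm J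

/-- FCO (FACT K'): `H(v₁ | O, v₂) ≤ qs - H(s | v₁, v₂, O)`.
Proof. The line `g` through `C` with the direction `v₁`, seen from the line 2:
`x(T) = ((T - s) / M) (v₁ - v₂)`. `k, b, E` as in FCK for `v₁ - v₂`,
`Z' = (v₂, k, b, E, Z)`. SCL with `g = (v₁ - v₂)_k`, `x = - (s / M) g`, `T = T_O` (uniform given
`v3, s`: UFC (1); `E log (1 + |T_O| / M)`: CGP):
`H(g|Z') ≤ H(⌊x(T_O)⌋ | T_O, Z')`. `O_k = X₂ (T_O)_k + x (T_O) + O(2)`, so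
`H(O|Z') ≥ lm + H(v₁|Z')`. `H(v₁, s, O | Z') ≤ H(v₁, s|Z') + lm` (`O` is a function of
`v₁, v₂, s, c` up to boundedly many values, UPT). So
`H(v₁, s|O Z') ≤ H(s|v₁ Z') ≤ qs`; subtract `H(s|v₁ O Z') = H(s|v₁ v₂ O)`. And
`H(Z'|O, v₂)` is small (`E_j` has `C M / |c|` values, as in FCK; CGP). -/
def FCOStmt : Prop :=
  ∀ d : ℕ, 1 ≤ d → Es d (fun _ F _ _ => CH F.q F.v₁ (fun w => (F.O w, F.v₂ w, F.Z w)) - F.qs +
    CH F.q F.s (fun w => (F.v12 w, F.O w, F.Z w)))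

/-! ### 5. The inequalities (Shannon only) -/

/-- TLN: two lines.
Proof. (1) `cp` and SEP (1). (2) `cl`, and `H(v₀, t, s|v₁ v₂) ≤ qs + H(v₀|v₁ v₂ s) + H(t|v₀ v₁)`,
where `H(v₀|v₁ v₂ s) ≤ H(v₀|v₁ C) ≤ ε` by FCK (`v = v₁`, `v' = v₀`, `r = s`; `C` is a function of
`v₂, s, Z` because of `cross02`; `cs`); SEP (1). -/
def TLNStmt : Prop :=
  ∀ d : ℕ, 1 ≤ d →
    Ev d (fun J F L sb => 2 * L + 2 * lm J - sb - F.y01 - CH F.q F.v01 F.Z) ∧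
    Es d (fun J F L sb => 3 * L + 4 * lm J - 2 * sb - F.qs - F.y01 - CH F.q F.v12 F.Z)

/-- ALL: entropy of the family of the lines 1 given `O`.
Proof. `H(v₁|O) = H(v₀ v₁) + H(O|v₀ v₁) - xh - et₁`; TLN (1), PAL (1). -/
def ALLStmt : Prop :=
  ∀ d : ℕ, 1 ≤ d →
    Es d (fun J F L sb => 2 * L + 4 * lm J - sb - 2 * F.y01 - F.xh - F.et₁ - F.FL.L)

/-- ALS: slices of the family of the lines 1 given `O`.
Proof. `S(FL) = H(B|O) - H(r|O)`, `H(r|O) ≥ lm` (DRV). `H(B, O) = H(A, B, O) - H(A|B O)`,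
`H(A, B, O) ≤ mh + H(T_O) + CHD ≤ mh + lm`. `H(A|B O) ≥ H(A|v₁ r O)` (`B` is a function of
`v₁, r`) `≥ H(v₀, t₁|v₁ r O) - H(v₀|v₁ A)` `= H(v₀|v₁ O r) + H(t₁|v₀ v₁ O r) - H(v₀|v₁ A)`. Here
`H(v₀|v₁ O r) ≥ et₁` because `r` is uniform given `v₀, v₁, O` (UFC (3)) and `H(r|v₁ O) ≤ lm`; the
second is `≥ y01` (T1L) and the third is `≤ ε` by FCK (`v = v₁`, `v' = v₀`, `r = t₁`). -/
def ALSStmt : Prop :=
  ∀ d : ℕ, 1 ≤ d → Es d (fun _ F _ _ => F.FL.S - (F.mh - F.xh - F.et₁ - F.y01))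

/-- AIL: entropy of the family of the lines 2 given `Y`, and `I(v₂; Y)`.
Proof. `H(v₂, Y) = H(v₁ v₂) + H(Y|v₁ v₂) - et` (at least), TLN (2), PAL (2); (2) is the same,
with `l2`. -/
def AILStmt : Prop :=
  ∀ d : ℕ, 1 ≤ d →
    Es d (fun J F L sb => 3 * L + 6 * lm J - 2 * sb - F.qs - F.y01 - F.y12 - F.yh - F.et -
      F.FI.L) ∧
    Es d (fun J F L sb => F.iy - (F.yh - 2 * L - 6 * lm J + 2 * sb + F.qs + F.y01 + F.y12 + F.et))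

/-- AIS: slices of the family of the lines 2 given `Y`.
Proof. `S(FI) = H(A₂|Y) - H(ta|Y)`, `H(ta|Y) ≥ lm` (DRV);
`H(A₂, Y) = H(A₂, O, Y) - xi ≤ sb + xh + H(T_Y) + CHD - xi`. -/
def AISStmt : Prop :=
  ∀ d : ℕ, 1 ≤ d → Ev d (fun _ F _ sb => F.FI.S - (sb + F.xh - F.yh - F.xi))

/-- AXI: lower bounds for `xi = H(O|A₂ Y)`.
Proof. `xi ≥ H(O|v₂ ta Y) = H(v₁|v₂ ta Y) + H(O|v₁ v₂ ta Y) - H(v₁|O v₂ ta Y)`. The first is
`≥ et` (`ta` is uniform given `v₁, v₂, Y`, UFD (3)). The second is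
`H(s|v₁ v₂ ta Y) + H(O|s v₁ v₂ ta Y) - ω`, `ω = H(s|O v₁ v₂ ta Y) ≤ y12` (SEP (2));
`H(s|v₁ v₂ ta Y) ≥ qs` because `H(ta, Y|v₁ v₂ s) ≥ lm + 2 lm - y12` (TMS, PAL (2)) and
`H(ta, Y|v₁ v₂) ≤ lm + 2 lm - y12` (PAR (2)); `H(O|s v₁ v₂ ta Y) ≥ H(c|s v₁ v₂ ta Y) =
H(c, Y|s v₁ v₂ ta) - H(Y|s v₁ v₂ ta) ≥ H(c, T_Y|v3 t s ta) - (2 lm - y12) ≥ y12` (UFD (4), PAR).
The third is `≤ et` and, by FCO, `≤ qs - H(s|v₁ v₂ O) ≤ qs - ω`. So
`xi ≥ et + qs + y12 - ω - third`. -/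
def AXIStmt : Prop :=
  ∀ d : ℕ, 1 ≤ d → Ev d (fun _ F _ _ => F.qs - F.xi) ∧
    Es d (fun _ F _ _ => F.et + F.y12 - F.xi)

/-- AYY: lower bound for `yh = H(Y)`.
Proof. `yh ≥ H(Y, C₂) - sb`; `(Y, C₂)` determines `v₁` (DIR (2)) and `c₂ = T_Y - tr`;
`H(v₁, C₂) = H(P, C₂, v₁) - H(P|v₁ C₂)`, `H(P|v₁ C₂) = rh` (`P` is a function of `v₁, t` by
`cross01`), `H(P, C₂, v₁) ≥ mh + L + lm - sb` (`sym`, `cv`); `H(c₂|v₁ C₂) ≥ lm` (UFD (2)). -/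
def AYYStmt : Prop :=
  ∀ d : ℕ, Ev d (fun J F L sb => F.mh + L + 2 * lm J - 2 * sb - F.rh - F.yh)

/-- ACO: `H(C, O)` and `I(C; O)`.
Proof. `(C, O)` determines `v₁` (DIR (1)) and `c`; `H(v₁, C) ≥ H(v₀, v₁, s) - H(v₀|v₁ C)`, the
last is `≤ ε` by FCK (`v = v₁`, `v' = v₀`, `r = s`); `H(v₀, v₁, s) ≥ 2 L + 3 lm - sb - y01`
(TLN (1), `cs`); `H(c|v₁ C) ≥ lm` (UFC (2)). Then `ic ≤ sb + xh - H(C, O)`. -/
def ACOStmt : Prop :=
  ∀ d : ℕ, 1 ≤ d →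
    Es d (fun J F L sb => F.ic - (2 * sb + F.xh - 2 * L - 4 * lm J + F.y01))

/-- TRV: the trivial bounds. -/
def TRVStmt : Prop :=
  (∀ (d J : ℕ) (F : Cf d J) (L sb e : ℝ), F.Ok L sb e → F.mh ≤ 2 * sb ∧ F.rh ≤ lm J ∧
    F.qs ≤ lm J ∧ 0 ≤ F.et₁ ∧ -Real.log 2 ≤ F.y01 ∧ F.y01 ≤ lm J ∧ -Real.log 2 ≤ F.y12 ∧
    F.y12 ≤ lm J) ∧
  ∀ (d J : ℕ) (G : Fm d J), 0 ≤ G.S ∧ 0 ≤ G.L ∧ G.sb ≤ G.S + lm J ∧ G.Y ≤ lm J ∧
    -Real.log 2 ≤ G.Y ∧ ∀ e, G.Tm e → 0 ≤ e ∧ G.S + lm J - e ≤ G.sb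

/-- CFG: every family has a configuration.
Proof. `pC` of `H32/Dense/Conf` (`M = 2 ^ J`): line 0 is `w.1.1` (`t, s, t₁` at
`w.1.1.1.1, w.1.1.1.2, w.1.1.2`), line 1 is `w.1.2` (`t` at `w.1.2.1`, `r` at `w.1.2.2`), line 2
is `w.2` (`s, tr, ta` at `w.2.1.1, w.2.1.2, w.2.2`); all the copies of a line have the same
`(v, Z)`. The entropies: gluing lemmas (`CH_glue_snd`, `CH_tri_3`, `CH_dbl_2`); `sym`: `pC_02`.
`y01 = G.Y`: the pair `(w.1.1.1.1, w.1.2.1)` has the law `dbl (av ..)`. `Spr`: an extension of the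
configuration is an extension of `G` (through the copy `w.1.1.1.1`, respectively `w.2.2`). -/
def CFGStmt : Prop :=
  ∀ (d J : ℕ) (G : Fm d J) (e : ℝ), G.Tm e → ∃ F : Cf d J, F.Ok G.L G.sb (10 * e) ∧
    F.y01 = G.Y ∧ ∀ (N : ℕ) (μ τ : ℝ), G.Spr N μ τ → F.Spr N μ τ

/-! ### 6. Level one -/

/-- PUR: the inequality of 32 and 53, all dimensions, exponent `aa`.
Proof. `level0G`, then `akd_of_akg` and `step_gen` of `H32/Dense` alternately (as in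
`Pool.Agent.H53.Dns.akg_iter`, without the bound for `lam`): the exponents
`2, 7 / 4, 1.6931, 1.6795, 1.6762, 1.6754, 1.67520, ..` tend to the root 1.675131 of
`α ^ 3 = 4 α - 2`; seven or eight steps reach `a' ≤ aa`. For `G : Fm d J` with `M = 2 ^ J`:
`Kf = lm J - CH τ (v, Z) ≤ e`, `0 ≤ G.S`. -/
def PURStmt : Prop :=
  ∀ d : ℕ, 1 ≤ d → ∀ ε : ℝ, 0 < ε → ∃ θ : ℝ, 0 < θ ∧ ∃ J₀ : ℕ, ∀ J : ℕ, J₀ ≤ J →
    ∀ (G : Fm d J) (e : ℝ), e ≤ θ * lm J → G.Tm e → G.L ≤ aa * G.S + ε * lm J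

/-- SUM: the sum of the inequalities.
Proof. `aa (ALL, ALS) + (aa - 1) (AIL, AIS) + (aa - 1) ^ 2 AYY`, then `mh ≤ 2 sb` (coefficient
`2 a - 1 > 0`), `rh ≤ lm`, and `a xi ≥ qs + et + y12 - (2 - a) lm` from AXI (`qs ≤ lm`,
`et + y12 ≤ lm` (ETA)). `xh` cancels. Check of the constants: `P = a + (a - 1) (a + 2) +
2 (a - 1) ^ 2 + 2 (2 a - 1)`, `D = 2 a + 3 (a - 1) + (a - 1) ^ 2`. -/
def SUMStmt : Prop :=
  ∀ d : ℕ, 1 ≤ d → Es d (fun J F L sb => DD aa * (L + 2 * lm J) - (PP aa * sb +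
    (aa - 1) * lm J + kh aa * F.y01 - aa * (aa * F.FL.S - F.FL.L) -
    (aa - 1) * (aa * F.FI.S - F.FI.L)))

/-- LVA (level one), for all families.
Proof. For the given family put `G : Fm d J := ⟨Ω, ζ, _, p, Z, v, u, τ, h⟩`; `G.L`, `G.S`, `G.Y` are
`CH p v Z`, `Sf ..`, `Yf ..` by `rfl`, and `G.Tm (θ J)` is the hypothesis on `Kf`. CFG for `G`
(with `e`), SUM, DRV and PUR for `FL`, `FI` (so that `aa S - L ≥ - ε lm` for both),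
`G.sb ≤ G.S + lm` (TRV); `PP + a - 1 - 2 DD = - kh`; `PP / DD ≤ aa`. -/
def LVAStmt : Prop := ∀ d : ℕ, 1 ≤ d → LevOne d aa

/-! ### 7. Spread families. (Heavy caps: rows HC, CAP, RED, LPL, TWO, ONC, INF of `H24/KTH/Top`) -/

/-- SPL: the lines 1 given `O` are spread.
Proof. For an extension `(Ω', q, pr, w)`: TWO for `v₀, s` (`cs`: `Kf ≤ e`), ONC with `v = v₀`,
`v' = v₁`, `c = F.c`, `X` = the position of `O` (`|rd x - x| ≤ 1`), `G = F.big F.c` (CGP): the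
middle term is `ic`. So `μ el lm - τ ≤ H(cap v₀|w) ≤ 2 (H(cap v₁|w O) + ic + C er)`. (`F.C`, `F.O`
are the pairs of ONC by `rfl`; the entropies without `w` are transported by `Marg.CH`.) -/
def SPLStmt : Prop :=
  ∀ d : ℕ, 1 ≤ d → ∀ N : ℕ, 1 ≤ N → ∃ C : ℝ, 0 ≤ C ∧ ∀ (J : ℕ) (F : Cf d J)
    (L sb e μ τ : ℝ), F.Ok L sb e → F.Spr N μ τ →
    F.FL.Spr N (μ / 2) (τ / 2 + F.ic + C * er J e)

/-- SPI: the lines 2 given `Y` are spread.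
Proof. INF with `v = v₂`, `Y = F.Y`; `I(v₂; Y)` is `iy` (`CH v₂ Z - CH v₂ (Y, Z)`). -/
def SPIStmt : Prop :=
  ∀ (d N : ℕ), 1 ≤ N → ∃ C : ℝ, 0 ≤ C ∧ ∀ (J : ℕ) (F : Cf d J) (L sb e μ τ : ℝ),
    F.Ok L sb e → F.Spr N μ τ → F.FI.Spr N μ (τ + F.iy + C)

/-! ### 8. Level two -/

/-- ARB: the arithmetic of level two.
Proof. (All numbers in units of `lm`; `ε` small errors.) `c_L = a S_L - L_L`, `c_I` likewise. With
`κ = kp a`: `h_L ≥ 0` and `h_L ≥ (μ / 2) e_L - T`, `T = τ / 2 + ic`, and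
`(a - 1) μ / 2 ≥ κ` give `c_L ≥ κ (1 - e_L) + (a - 1) h_L ≥ κ - (κ / μ) max 0 (τ + 2 ic)`;
same `c_I ≥ κ - (κ / μ) max 0 (τ + iy)`. From ALL, ALS:
`(a - 1) xh ≤ a mh - 2 L - 4 + sb + (2 - a) y - c_L`, so with ACO and `c_L ≥ 0` and `mh ≤ 2 sb`:
`ic ≤ ((4 a - 1) sb - 2 a (L + 2) + y) / (a - 1)`. `iy ≤ iy' + (yh - yh') + (1 - rh)` with
`yh' = mh + L + 2 - 2 sb - rh` and `iy' = 2 sb - L - 3 + y`. In the sum of SUM keep the terms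
`- (a - 1) ^ 2 (yh - yh')` and `- (a - 1) ^ 2 (1 - rh)`; `(a - 1) ^ 2 ≥ (a - 1) κ / μ`. -/
def ARBStmt : Prop :=
  ∀ μ : ℝ, 2 * kp aa / (aa - 1) ≤ μ → ∃ C : ℝ, 0 ≤ C ∧
    ∀ L sb y xh yh mh e1 et12 q rh xi ic iy LL SL eL hL LI SI eI hI τ ε : ℝ, 0 ≤ ε → ε ≤ 1 →
    mh ≤ 2 * sb → rh ≤ 1 → q ≤ 1 → et12 ≤ 1 + ε → 0 ≤ e1 → -ε ≤ y →
    2 * L + 4 - sb - 2 * y - xh - e1 - LL ≤ ε → SL - (mh - xh - e1 - y) ≤ ε →
    3 * L + 6 - 2 * sb - q - y - yh - et12 - LI ≤ ε → SI - (sb + xh - yh - xi) ≤ ε →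
    iy - (yh - 2 * L - 6 + 2 * sb + q + y + et12) ≤ ε → q - xi ≤ ε → et12 - xi ≤ ε →
    mh + L + 2 - 2 * sb - rh - yh ≤ ε → ic - (2 * sb + xh - 2 * L - 4 + y) ≤ ε →
    LL ≤ aa * SL + ε → LI ≤ aa * SI + ε →
    LL ≤ aa * SL - kp aa * (1 - eL) - (aa - 1) * hL + ε → 0 ≤ hL →
    μ / 2 * eL - (τ / 2 + ic) - ε ≤ hL →
    LI ≤ aa * SI - kp aa * (1 - eI) - (aa - 1) * hI + ε → 0 ≤ hI →
    μ * eI - (τ + iy) - ε ≤ hI →
    DD aa * (L + 2) ≤ PP aa * sb + (aa - 1) + kh aa * y - (2 * aa - 1) * kp aa +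
      aa * kp aa / μ * max 0 (τ + 2 * (((4 * aa - 1) * sb - 2 * aa * (L + 2) + y) / (aa - 1))) +
      (aa - 1) * kp aa / μ * max 0 (τ + (2 * sb - L - 3 + y)) + C * ε

/-- LVB (level two), for spread families.
Proof. CFG for `G`; LevPlus (hypothesis) for `FL`, `FI` (`DRV`), with the `N` of LevPlus for a
smaller `ε`; SPL and SPI applied with the identity extension to the `w` of LevPlus (`Marg.id`),
the inequalities of section 5 and TRV; ARB (divide by `lm J > 0`), `G.sb ≤ G.S + lm`. -/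
def LVBStmt : Prop :=
  ∀ d : ℕ, 1 ≤ d → LevPlus d aa → ∀ μ : ℝ, 2 * kp aa / (aa - 1) ≤ μ → ∀ ε : ℝ, 0 < ε →
    ∃ N : ℕ, 1 ≤ N ∧ ∃ θ : ℝ, 0 < θ ∧ ∃ J₀ : ℕ, ∀ J : ℕ, J₀ ≤ J → ∀ (G : Fm d J) (e τ : ℝ),
    e ≤ θ * lm J → G.Tm e → G.Spr N μ (τ * lm J) →
    DD aa * (G.L + 2 * lm J) ≤ PP aa * (G.S + lm J) + (aa - 1) * lm J + kh aa * G.Y -
      (2 * aa - 1) * kp aa * lm J +
      aa * kp aa / μ * max 0 (τ * lm J + 2 * (((4 * aa - 1) * (G.S + lm J) -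
        2 * aa * (G.L + 2 * lm J) + G.Y) / (aa - 1))) +
      (aa - 1) * kp aa / μ * max 0 (τ * lm J + (2 * (G.S + lm J) - G.L - 3 * lm J + G.Y)) +
      ε * lm J

/-! ### 9. Kakeya -/

/-- KSP: families with many directions are spread.
Proof. For an extension: `H(cap|w) ≥ H(v|w) - H(v|cap, w) ≥ L - log (N + 1) -
d (1 - E w / N) lm - C`: first inequality of CAP (24). -/
def KSPStmt : Prop :=
  ∀ (d N : ℕ), 1 ≤ N → ∃ C : ℝ, 0 ≤ C ∧ ∀ (J : ℕ) (G : Fm d J) (x : ℝ),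
    ((d : ℝ) - x) * lm J ≤ G.L → G.Spr N d (x * lm J + C)

/-- NUM: the numbers, `m ≥ 7`.
Proof. The right side is increasing in `S', Y', τ` and decreasing in `L'`: insert the bounds (this
costs `C ε₀`). In `e0` the right minus the left side has slope
`≤ - a (2 a - 1) m + kh + (a - 1) κ / m < 0` (the first maximum decreases in `e0`, because
`m ≤ 2 ((2 a - 1) m - 1) / (a - 1)`; the second has slope at most 1), so `e0 = 0`. For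
`S = (m + .28) / a` the difference is `≤ .0042 - .143 / m - .000182 m < - .002`, and it is
increasing in `S`. -/
def NUMStmt : Prop :=
  ∀ m : ℕ, 7 ≤ m → ∃ ε₀ : ℝ, 0 < ε₀ ∧ ∀ S L' S' Y' τ e0 : ℝ, 0 ≤ e0 → e0 ≤ 1 →
    m * (1 - e0) - ε₀ ≤ L' → S' ≤ S - m * e0 + ε₀ → Y' ≤ e0 + ε₀ → τ ≤ m * e0 + ε₀ →
    DD aa * (L' + 2) ≤ PP aa * (S' + 1) + (aa - 1) + kh aa * Y' - (2 * aa - 1) * kp aa +
      aa * kp aa / m * max 0 (τ + 2 * (((4 * aa - 1) * (S' + 1) - 2 * aa * (L' + 2) + Y') /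
        (aa - 1))) +
      (aa - 1) * kp aa / m * max 0 (τ + (2 * (S' + 1) - L' - 3 + Y')) + ε₀ →
    (m + 0.28) / 1.6752 ≤ S

/-- LVO: the entropy theorem.
Proof. RED for `G` (levels `w` with the `N` of LVB for a small `ε`, `e0 = Ex w / N`,
`G⁺ : Fm m J` with `Z⁺ = (cap, w, Z)`). CAP with `W = Z`: `h ≤ m e0 lm + C`,
`h ≥ L - m (1 - e0) lm - C ≥ (m e0 - θ) lm - C`, `L⁺ ≥ L - h - C`; `S⁺ ≤ S - h + ε`,
`Y⁺ ≤ e0 + 1 / N + ε` (take `N` large: LVB may be used for a multiple of `N`? no: apply RED with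
an independent large `N'`, the levels of RED and of LVB need not agree), `G⁺.Spr N m` with
`τ = m e0 + ε` (KSP with `x = m e0 + ε`). LVB with `μ = m` for `G⁺`, NUM. -/
def LVOStmt : Prop := ∀ m : ℕ, 7 ≤ m → LevPlus m aa → LevZero m ((m + 0.28) / 1.6752)

/-- FIN: the theorem.
Proof. LVA, LPL, LVO, EFR, DIM. -/
def FINStmt : Prop :=
  ∀ n : ℕ, 8 ≤ n → ∀ K : Set (EuclideanSpace ℝ (Fin n)),
    (∀ e : EuclideanSpace ℝ (Fin n), ‖e‖ = 1 → ∃ x : EuclideanSpace ℝ (Fin n), ∀ t : ℝ,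
      0 ≤ t → t ≤ 1 → x + t • e ∈ K) →
    ENNReal.ofReal (1 + ((n : ℝ) - 0.72) / 1.6752) ≤ dimH K

end Pool.KTH
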