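import Pool.Agent.H12.KTH.Err
import Pool.Agent.H24.KTH.Geo

/-!
# The rows of sections 1 - 3 and 5 with explicit coefficients of the deficit

`F.Okk L sb K G`: deficit `K` of the times, all the energies of pairs of times at most `G`.  Errors:
`k * K + C * er J G (+ ε * lm J)`, `k` explicit, `er J G = G + 1 + log (J + 2)`.  `K` and `G` are not
small.  `F.eta` is the deficit of the coefficient `c`.  Serves `Pool.LQ.STPStmt`.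
-/

set_option autoImplicit false

namespace Pool.KTH

open Finset Real
open Pool.Agent.H49.Ent Pool.Agent.H32.Dense
open Pool.Agent.H24.KTH (dsv lvv lev cap Yf kp LevOne LevPlus LevZero)

variable {d J : ℕ}

/-- The entropies of the configuration. -/
structure Cf.Okk (F : Cf d J) (L sb K G : ℝ) : Prop where
  K0 : 0 ≤ K
  G0 : 0 ≤ G
  /-- the lines 0, 1 and their crossing time -/
  cp : 2 * L + 2 * lm J - sb - 2 * K ≤ CH F.q (fun w => (F.v01 w, F.t w)) F.Z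
  /-- the three lines and their crossing times -/
  cl : 3 * L + 4 * lm J - 2 * sb - 4 * K ≤ CH F.q (fun w => (F.v3 w, F.t w, F.s w)) F.Z
  /-- the line 1 given the crossing point and a point of the line 2 -/
  cv : L + lm J - sb - K ≤ CH F.q F.v₁ (fun w => ((F.P w, F.C₂ w), F.Z w))
  cs : lm J - K ≤ CH F.q F.s (fun w => (F.v01 w, (F.t w, F.t₁ w, F.r w), F.Z w))
  ct₁ : lm J - K ≤ CH F.q F.t₁
    (fun w => (F.v3 w, (F.t w, F.s w), (F.r w, F.tr w, F.ta w), F.Z w))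
  cr : lm J - K ≤ CH F.q F.r
    (fun w => (F.v3 w, (F.t w, F.s w), (F.t₁ w, F.tr w, F.ta w), F.Z w))
  ctr : lm J - K ≤ CH F.q F.tr
    (fun w => (F.v3 w, (F.t w, F.s w), (F.t₁ w, F.r w, F.ta w), F.Z w))
  cta : lm J - K ≤ CH F.q F.ta
    (fun w => (F.v3 w, (F.t w, F.s w), (F.t₁ w, F.r w, F.tr w), F.Z w))
  /-- `c` is independent of the third line and its times -/
  ci : CH F.q F.c (fun w => (F.v3 w, (F.t w, F.s w, F.tr w, F.ta w), F.Z w)) =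
    CH F.q F.c (fun w => (F.v01 w, (F.t w, F.s w), F.Z w))
  /-- `t₁` is independent of `t` given the lines 0, 1 -/
  it₁ : CH F.q F.t₁ (fun w => (F.v01 w, F.Z w)) = CH F.q F.t₁ (fun w => (F.v01 w, F.t w, F.Z w))
  /-- `s` is independent of `t` given the lines 0, 1 -/
  is : CH F.q F.s (fun w => (F.v01 w, F.Z w)) = CH F.q F.s (fun w => (F.v01 w, F.t w, F.Z w))
  /-- the energies -/
  eg : F.eg F.t F.s ≤ G ∧ F.eg F.t₁ F.t ≤ G ∧ F.eg F.t₁ F.s ≤ G ∧ F.eg F.r F.t ≤ G ∧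
    F.eg F.r F.s ≤ G ∧ F.eg F.r F.t₁ ≤ G ∧ F.eg F.tr F.s ≤ G ∧ F.eg F.ta F.s ≤ G ∧
    F.eg F.ta F.tr ≤ G ∧ F.eg F.ta F.TO ≤ G
  l0 : CH F.q F.v₀ F.Z = L
  l1 : CH F.q F.v₁ F.Z = L
  l2 : CH F.q F.v₂ F.Z = L
  sC : CH F.q F.C F.Z ≤ sb
  sA : CH F.q F.A F.Z ≤ sb
  sB : CH F.q F.B F.Z ≤ sb
  sC₂ : CH F.q F.C₂ F.Z ≤ sb
  sA₂ : CH F.q F.A₂ F.Z ≤ sb
  /-- symmetry of the times of the line 0 -/
  sym : CH F.q (fun w => (F.P w, F.C₂ w)) F.Z = F.mh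

/-- the deficit of the first coefficient -/
noncomputable def Cf.eta (F : Cf d J) : ℝ :=
  lm J - CH F.q F.c (fun w => (F.v01 w, (F.t w, F.s w), F.Z w))
/-- the deficit of the family of the lines 1 given `O` -/
noncomputable def Cf.KL (F : Cf d J) : ℝ := lm J - CH F.q F.r (fun w => (F.v₁ w, F.O w, F.Z w))
/-- the deficit of the family of the lines 2 given `Y` -/
noncomputable def Cf.KI (F : Cf d J) : ℝ := lm J - CH F.q F.ta (fun w => (F.v₂ w, F.Y w, F.Z w))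
/-- the gap in the upper bound of `H(O|v₀ v₁)` -/
noncomputable def Cf.g1 (F : Cf d J) : ℝ :=
  2 * lm J - F.y01 - CH F.q F.O (fun w => (F.v01 w, F.Z w))
/-- the gap in the upper bound of `H(Y|v₁ v₂)` -/
noncomputable def Cf.g2 (F : Cf d J) : ℝ :=
  2 * lm J - F.y12 - CH F.q F.Y (fun w => (F.v12 w, F.Z w))

/-- `f ≤ k K + C er J G` -/
def Evk (d : ℕ) (k : ℝ) (f : ∀ J : ℕ, Cf d J → ℝ → ℝ → ℝ) : Prop :=
  ∃ C : ℝ, 0 ≤ C ∧ ∀ (J : ℕ) (F : Cf d J) (L sb K G : ℝ), F.Okk L sb K G →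
    f J F L sb ≤ k * K + C * er J G

/-- `f ≤ k K + C er J G + ε lm J` -/
def Esk (d : ℕ) (k : ℝ) (f : ∀ J : ℕ, Cf d J → ℝ → ℝ → ℝ) : Prop :=
  ∀ ε : ℝ, 0 < ε → ∃ C : ℝ, 0 ≤ C ∧ ∃ J₀ : ℕ, ∀ J : ℕ, J₀ ≤ J → ∀ (F : Cf d J) (L sb K G : ℝ),
    F.Okk L sb K G → f J F L sb ≤ k * K + C * er J G + ε * lm J

/-! ### Times -/

/-- KPK: ratios and coefficients. Proof: as KPS, CGP and UPT; the energies are fields of `Okk`. -/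
def KPKStmt : Prop :=
  ∀ d : ℕ, Evk d 0 (fun _ F _ _ => Ex F.q (fun w => Real.log (1 + |F.k₁ w|)) +
      Ex F.q (fun w => Real.log (1 + |F.k₁ w|⁻¹)) + Ex F.q (fun w => Real.log (1 + |F.k₂ w|)) +
      Ex F.q (fun w => Real.log (1 + |F.k₂ w|⁻¹))) ∧
    Evk d 0 (fun _ F _ _ => F.big F.c + F.sml F.c + F.big F.c₂ + F.sml F.c₂) ∧
    Evk d 0 (fun J F _ _ => CH F.q F.c F.Z - lm J) ∧
    Evk d 0 (fun J F _ _ => CH F.q F.c₂ F.Z - lm J) ∧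
    Evk d 0 (fun J F _ _ => CH F.q F.TO F.Z - lm J) ∧
    Evk d 0 (fun J F _ _ => CH F.q F.TY F.Z - lm J)

/-- UCK: the first coefficient.
Proof. (1) `c` given also `r`: as in UFC (3): `H(c|r ..) ≥ H(t₁|r ..) - C er ≥ lm - K - C er`.
(2) upper bound KPK. (3) `H(r|.., c) = H(r|..) + H(c|r ..) - H(c|..) ≥ (lm - K) + (lm - K) -
(lm - eta)`. (4) UFT: `ct₁` and `cs`. -/
def UCKStmt : Prop :=
  ∀ d : ℕ, Evk d 1 (fun _ F _ _ => F.eta) ∧ Evk d 0 (fun _ F _ _ => - F.eta) ∧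
    Evk d 2 (fun J F _ _ => lm J + F.eta - CH F.q F.r
      (fun w => (F.v01 w, (F.t w, F.s w, F.c w), F.Z w))) ∧
    Evk d 2 (fun J F _ _ => 2 * lm J - CH F.q (fun w => (F.t₁ w, F.TO w))
      (fun w => (F.v01 w, (F.t w, F.r w), F.Z w)))

/-- UDK: the second coefficient.
Proof. (1) `c₂ = ⌊k₂ c⌋`, `c` is known from `c₂, s, tr, ta` up to `C (1 + |k₂|⁻¹)` values; `ci`:
`H(c|v3 t s tr ta) = lm - eta`. (2) `H(ta|.., c₂) = H(ta|..) + H(c₂|ta ..) - H(c₂|..) ≥ (lm - K) +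
(lm - eta) - lm - C er`. (3) `c` has deficit `eta` (`ci`), and given `c` the time `T_Y` has the
deficit `K` of `tr` (UFD (4)). -/
def UDKStmt : Prop :=
  ∀ d : ℕ, Evk d 0 (fun J F _ _ => lm J - F.eta - CH F.q F.c₂
      (fun w => (F.v3 w, (F.t w, F.s w, F.tr w, F.ta w), F.Z w))) ∧
    Evk d 1 (fun J F _ _ => lm J - F.eta - CH F.q F.ta
      (fun w => (F.v3 w, (F.t w, F.s w, F.tr w, F.c₂ w), F.Z w))) ∧
    Evk d 1 (fun J F _ _ => 2 * lm J - F.eta - CH F.q (fun w => (F.c w, F.TY w))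
      (fun w => (F.v3 w, (F.t w, F.s w, F.ta w), F.Z w)))

/-- DRK: deficits of the derived families. Proof: UCK (3), UDK (2); `O`, `Y` are functions. -/
def DRKStmt : Prop :=
  ∀ d : ℕ, Evk d 2 (fun _ F _ _ => F.KL + F.eta) ∧ Evk d 1 (fun _ F _ _ => F.KI - F.eta)

/-! ### Geometry (no `K`) -/

/-- GEK: geometry. Proof: as SEP, PAR, DIR, CHD, ETA (only energies are used); from the generic
rows PT3, PT4, PT5, PT7, CHO, VEC of `H24/KTH/Geo` with KPK. -/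
def GEKStmt : Prop :=
  ∀ d : ℕ, 1 ≤ d → Evk d 0 (fun _ F _ _ => CH F.q F.t (fun w => (F.v01 w, F.Z w)) - F.y01) ∧
    Evk d 0 (fun _ F _ _ => CH F.q F.s (fun w => (F.v12 w, F.O w, F.Z w)) - F.y12) ∧
    Evk d 0 (fun _ F _ _ => - F.g1) ∧ Evk d 0 (fun _ F _ _ => - F.g2) ∧
    Evk d 0 (fun _ F _ _ => CH F.q F.v₁ (fun w => (F.O w, F.C w, F.Z w))) ∧
    Evk d 0 (fun _ F _ _ => CH F.q F.v₁ (fun w => (F.Y w, F.C₂ w, F.Z w))) ∧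
    Evk d 0 (fun _ F _ _ => CH F.q F.O (fun w => ((F.A w, F.B w), F.TO w, F.Z w))) ∧
    Evk d 0 (fun _ F _ _ => CH F.q F.Y (fun w => ((F.A₂ w, F.O w), F.TY w, F.Z w))) ∧
    Evk d 0 (fun J F _ _ => F.et + F.y12 - lm J)

/-! ### Córdoba's argument with explicit deficits -/

/-- SCX: scalar families, all deficits `K`: `lm + H(g|Z) ≤ H(T, x(T)|Z) + 2 K + ..`.
Proof. First `0 ≤ T < 2 ^ J` (side information `κ = T / 2 ^ J`, `CH_le_tail` with `M = 1`) and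
`|g| ≤ 2 ^ J` (replace `g` by `⌊g / 2⌋`, `log 2`). HC of `H24/KTH/Top` with `d = 1`, `B = (T, x(T), Z)`
(rounded position), `N` with `1 / N ≤ ε`: levels `w`, `D` = the cap of `g`, `Z⁺ = (w, D, Z)`,
`e = E w / N`, `h = H(D|w Z)`. (a) `H(T, x|Z) ≥ H(T, x, D|w Z) - ε lm = h + H(T, x|Z⁺) - ε lm`.
(b) `2 H(T|g x0 Z⁺) ≤ H(T|Z⁺) + H(x|T Z⁺) + H(T|g, x0, g', x0', Z⁺)` for two copies given
`(T, x, Z⁺)` (`mates` in `H13/KAL/KP1.lean`), the last term is at most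
`E log (C M / max 1 |g - g'|) ≤ e lm + ε lm + C` by HC (two lines which meet); so
`H(T, x|Z⁺) ≥ 2 (lm - K - log (N + 1)) - e lm - ..`. (c) `H(g|Z) ≤ log (N + 1) + h + H(g|Z⁺)`,
`H(g|Z⁺) ≤ (1 - e) lm + C` (CAP). Sum: `H(T, x|Z) ≥ h + 2 lm - 2 K - e lm ≥ lm - 2 K + H(g|Z)`. -/
def SCXStmt : Prop :=
  ∀ ε : ℝ, 0 < ε → ∃ C : ℝ, 0 ≤ C ∧ ∃ J₀ : ℕ, ∀ J : ℕ, J₀ ≤ J → ∀ (Ω ζ : Type) [Fintype Ω]
    (q : Ω → ℝ) (Z : Ω → ζ) (g : Ω → ℤ) (x : Ω → ℝ) (T : Ω → ℤ) (K : ℝ), (∀ w, 0 ≤ q w) →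
    ∑ w, q w = 1 → (∀ w, 0 < q w → |g w| ≤ 2 * 2 ^ J) →
    lm J - K ≤ CH q T (fun w => ((g w, x w), Z w)) →
    lm J + CH q g Z ≤ CH q (fun w => (T w, ⌊x w + T w / 2 ^ J * g w⌋)) Z + 2 * K +
      C * (1 + Ex q (fun w => Real.log (1 + |(T w : ℝ)| / 2 ^ J))) + ε * lm J

/-- KKX: `KK` of `H24/KTH/Geo` with explicit deficit `K` of `s + c` given `s, v, w`.
Proof. `k` = coordinate of the maximum of `|v - w|`, `b` = its dyadic class, `E` = the quotients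
`(v - w)_j / (v - w)_k` rounded at `2 ^ (- b)`, `Z' = (Z, w, k, b, E)`, `T = s + c`. SCX with
`g = (v - w)_k`, position `- (s / M) g` at time zero (`H(T|g, s, Z') ≥ lm - K`):
`H(T, X|Z') ≥ lm + H(v|Z') - 2 K`, because `X_k = pos uw w T k + x(T) + O(2)` and `v` is known from
`(Z', g)`. `H(T, X|v s Z') ≤ H(T|v s Z') + C er ≤ lm - K'` where `K' := lm - H(T|s v w Z)` is the
exact deficit (take `K = K'` in SCX, then `K' ≤ K`; `k b E` are functions of `v, w`). So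
`H(v, s|T X Z') = H(v s|Z') + H(T X|v s Z') - H(T X|Z') ≤ H(s|v w Z) + K' + ..`; and
`H(Z'|T X w Z) ≤ C (E sz c + 1) + log (J + 2)` as in KK, PT7. -/
def KKXStmt : Prop :=
  ∀ (d : ℕ) (ε : ℝ), 0 < ε → ∃ C : ℝ, 0 ≤ C ∧ ∃ J₀ : ℕ, ∀ J : ℕ, J₀ ≤ J →
    ∀ (Ω : Type) [Fintype Ω] (ζ : Type) (q : Ω → ℝ) (Z : Ω → ζ)
    (w : Ω → Fin d → ℤ) (uw : Ω → Fin d → ℝ) (v : Ω → Fin d → ℤ) (s c : Ω → ℤ)
    (X : Ω → Fin d → ℤ) (K G : ℝ), Pool.Agent.H24.KTH.Pt (2 ^ J) q Z w uw v s c X →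
    lm J - K ≤ CH q (fun ω => s ω + c ω) (fun ω => (s ω, v ω, w ω, Z ω)) →
    Ex q (fun ω => Pool.Agent.H24.KTH.sz (2 ^ J) (c ω)) ≤ G →
    CH q (fun ω => (v ω, s ω)) (fun ω => ((s ω + c ω, X ω), w ω, Z ω)) ≤
      CH q s (fun ω => (v ω, w ω, Z ω)) + K + C * er J G + ε * lm J

/-- FKK: Facts K and K'.
Proof. (2) KKX with base line `v₁` (`w = v₁`, `uw = u₁`), `v = v₀`, `s = F.t`, `c = F.s - F.t`,
`X` = the position of `C` (`Pt`: `cross01`): `H(v₀, t|v₁ C) ≤ H(t|v₀ v₁) + K`; deficit: `cs`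
(fewer conditions). (1) the same with `t₁` for `s`, `A` for `C` and the exact deficit
`K' = lm - H(t₁|v₀ v₁ t)`, then `H(t|v₀ v₁ A) = H(t|v₀ v₁ t₁) = H(t|v₀ v₁)` (`it₁`, Bayes) is
subtracted. (3) base line `v₂`, `v = v₁`, `s`, `c = F.c`, `X` = position of `O` (`Pt`: `cross02`):
`H(v₁, s|O v₂) ≤ qs + eta`, the deficit of `s + c` given `s, v₁, v₂` is at most `eta` (`ci`). -/
def FKKStmt : Prop :=
  ∀ d : ℕ, 1 ≤ d →
    Esk d 1 (fun _ F _ _ => CH F.q F.v₀ (fun w => (F.v₁ w, F.A w, F.Z w))) ∧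
    Esk d 1 (fun _ F _ _ => CH F.q (fun w => (F.v₀ w, F.t w)) (fun w => (F.v₁ w, F.C w, F.Z w)) -
      CH F.q F.t (fun w => (F.v01 w, F.Z w))) ∧
    Esk d 0 (fun _ F _ _ => CH F.q F.v₁ (fun w => (F.O w, F.v₂ w, F.Z w)) - F.qs - F.eta +
      CH F.q F.s (fun w => (F.v12 w, F.O w, F.Z w)))

/-! ### The inequalities -/

/-- TLK: two lines. Proof: as TLN with FKK (2). -/
def TLKStmt : Prop :=
  ∀ d : ℕ, 1 ≤ d →
    Evk d 2 (fun J F L sb => 2 * L + 2 * lm J - sb - F.y01 - CH F.q F.v01 F.Z) ∧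
    Esk d 5 (fun J F L sb => 3 * L + 4 * lm J - 2 * sb - F.qs - F.y01 - CH F.q F.v12 F.Z)

/-- ALK: as ALL: `H(v₁|O) = H(v₀ v₁) + H(O|v₀ v₁) - xh - et₁`, `H(O|v₀ v₁) = 2 lm - y01 - g1`. -/
def ALKStmt : Prop :=
  ∀ d : ℕ, 1 ≤ d →
    Evk d 2 (fun J F L sb => 2 * L + 4 * lm J - sb - 2 * F.y01 - F.g1 - F.xh - F.et₁ - F.FL.L)

/-- ASK: as ALS, with `FL.sb = H(B|O)`.
Proof. `H(B, O) = H(A, B, O) - H(A|B O)`, `H(A, B, O) ≤ mh + lm` (GEK, KPK).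
`H(A|B O) ≥ H(A|v₁ r O) ≥ H(v₀|v₁ r O) + H(t₁|v₀ v₁ O r) - H(v₀|v₁ A)`;
`H(v₀|v₁ r O) = et₁ + H(r|v₀ v₁ O) - (lm - KL)`;
`H(t₁|v₀ v₁ O r) ≥ H(t₁, T_O|v₀ v₁ t r) - H(O|v₀ v₁ r)`,
`H(O|v₀ v₁ r) = 2 lm - y01 - g1 + H(r|O v₀ v₁) - H(r|v₀ v₁)`, `H(r|v₀ v₁) ≥ lm - K`, UCK (4); sum:
`H(A|B O) ≥ et₁ + KL + y01 + g1 - 3 K - K`. -/
def ASKStmt : Prop :=
  ∀ d : ℕ, 1 ≤ d →
    Esk d 4 (fun J F _ _ => F.FL.sb - lm J - (F.mh - F.xh - F.et₁ - F.y01 - F.g1 - F.KL))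

/-- AIK: as AIL: `H(v₂, Y) ≥ H(v₁ v₂) + H(Y|v₁ v₂) - et`. -/
def AIKStmt : Prop :=
  ∀ d : ℕ, 1 ≤ d →
    Esk d 5 (fun J F L sb => 3 * L + 6 * lm J - 2 * sb - F.qs - F.y01 - F.y12 - F.g2 - F.yh -
      F.et - F.FI.L)

/-- AJK: as AIS, with `FI.sb = H(A₂|Y)`. -/
def AJKStmt : Prop :=
  ∀ d : ℕ, 1 ≤ d → Evk d 0 (fun J F _ sb => F.FI.sb - lm J - (sb + F.xh - F.yh - F.xi))

/-- AXK: as AXI.
Proof. `xi ≥ H(v₁|v₂ ta Y) + H(O|v₁ v₂ ta Y) - third`, first `= et + H(ta|v₁ v₂ Y) - (lm - KI)`;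
second `= H(s|v₁ v₂ ta Y) + H(O|s v₁ v₂ ta Y) - ω`, and
`H(s|v₁ v₂ ta Y) = qs + H(ta|v₁ v₂ s) + H(Y|v₁ v₂ s ta) - H(ta|v₁ v₂ Y) - H(Y|v₁ v₂)`,
`H(O|s v₁ v₂ ta Y) ≥ H(c, T_Y|v3 t s ta) - H(Y|s v₁ v₂ ta)`, UDK (3). Sum:
`xi ≥ et + qs + y12 + g2 + KI - 2 K - eta - ω - third`. (1) `third ≤ et`, `ω ≤ y12`. (2)
`third ≤ qs + eta - ω` (FKK (3)). -/
def AXKStmt : Prop :=
  ∀ d : ℕ, 1 ≤ d → Evk d 2 (fun _ F _ _ => F.qs + F.g2 + F.KI - F.eta - F.xi) ∧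
    Esk d 2 (fun _ F _ _ => F.et + F.y12 + F.g2 + F.KI - 2 * F.eta - F.xi)

/-- AYK: as AYY (`H(c₂|v₁ C₂) ≥ lm - eta`, UDK (1)). -/
def AYKStmt : Prop :=
  ∀ d : ℕ, 1 ≤ d →
    Evk d 1 (fun J F L sb => F.mh + L + 2 * lm J - 2 * sb - F.rh - F.eta - F.yh)

/-- SMK: the sum.
Proof. `c_L = a (FL.sb - lm) + Λ KL - FL.L`, `c_I` likewise. `a (ALK, ASK) + (a - 1) (AIK, AJK, AXK) +
(a - 1) ^ 2 AYK`, with `0 ≤ et₁`, `g1, g2 ≥ - C er` (GEK), `mh ≤ 2 sb`, `rh ≤ lm`, `KL ≤ 2 K - eta`,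
`KI ≤ K + eta` (DRK), `m₁ := max qs (et + y12 - eta) ≤ lm + C er`,
`qs + et + y12 - a m₁ ≤ (2 - a) m₁ + eta`. The coefficient of `eta` is
`- (Λ - a) + 2 a (a - 1) ≤ 0`: `eta ≥ - C er`. The coefficient of `K`:
`a (4 a + 2) + (a - 1) (2 a + 5) + (a - 1) ^ 2 + (Λ - a) (3 a - 1)`. -/
def SMKStmt : Prop :=
  ∀ (d : ℕ) (a Λ : ℝ), 1 ≤ d → 1 ≤ a → a ≤ 2 → a + 4 ≤ Λ →
    Esk d (7 * a ^ 2 + 3 * a - 4 + (3 * a - 1) * (Λ - a)) (fun J F L sb =>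
      DD a * (L + 2 * lm J) - (PP a * sb + (a - 1) * lm J + kh a * F.y01 -
      a * (a * (F.FL.sb - lm J) + Λ * F.KL - F.FL.L) -
      (a - 1) * (a * (F.FI.sb - lm J) + Λ * F.KI - F.FI.L)))

/-- CFK: configurations with the exact deficit and energies bounded by the energy of the times.
Proof. As CFG (`ci`, `it₁`, `is`: conditional independence of the copies). Energies of two times of
one line: `Gf` (`gp ≤ log 2 + ell`). Two lines (`r, s`, `r, t₁`, `ta, T_O`): row CEN of `H60/LQ`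
with `W` = the lines and the other times (`T_O = s + ⌊k₁ (r - t)⌋` is an affine image of `r`:
`|T_O - T_O'| + 1 ≥ |k₁| |r - r'|`, self energy `Gf + E log (1 + |k₁|⁻¹) + C`). -/
def CFKStmt : Prop :=
  ∀ d : ℕ, ∃ C : ℝ, 0 ≤ C ∧ ∀ (J : ℕ) (G : Fm d J), ∃ F : Cf d J,
    F.Okk G.L G.sb (lm J - CH G.p G.τ (fun ω => (G.v ω, G.Z ω)))
      (C * (1 + Gf (2 ^ J) G.p (bv G.Z G.v) G.τ)) ∧ F.y01 = G.Y

end Pool.KTH
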